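import Pool.Agent.K4H43.IW.Fld

/-!
# The reduction to unramified split steps
-/

set_option autoImplicit false

namespace Pool.Agent.K4H43.IW

open Subgroup Module IntermediateField Pool.Agent.Q60.MU Pool.Agent.K4H24.IW
open scoped Pointwise

theorem degLe_pos {p : ℕ} {E : IntermediateField ℚ Qb} [FiniteDimensional ℚ E] {D : ℕ}
    (h : DegLe p E D) : 1 ≤ D := by
  have h1 := (rankLe_iff (p := p) E D).2 h
  have h2 := h1 E.fixingSubgroup le_rfl E.fixingSubgroup_isOpen (by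
    rw [relIndex_self]
    exact one_ne_zero) (by
    rintro x ((⟨a, ha, rfl⟩ | ⟨a, ha, b, hb, rfl⟩) | ⟨hx, -⟩)
    · exact pow_mem ha p
    · rw [commutatorElement_def]
      exact mul_mem (mul_mem (mul_mem ha hb) (inv_mem ha)) (inv_mem hb)
    · exact hx)
  rwa [relIndex_self] at h2

/-- squares fix a square root of `-1` -/
theorem sq_fix {ι : Qb} (hι : ι ^ 2 = -1) (σ : Gal(Qb/ℚ)) : (σ ^ 2) ι = ι := by
  have h1 : (σ ι) ^ 2 = ι ^ 2 := by
    rw [← map_pow, hι, map_neg, map_one]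
  rw [pow_two, AlgEquiv.mul_apply]
  rcases sq_eq_sq_iff_eq_or_eq_neg.1 h1 with h | h
  · rw [h, h]
  · rw [h, map_neg, h, neg_neg]

/-- the subgroup of the elements which fix the square roots of `-1` -/
theorem exists_Ki : ∃ (Ki : Subgroup Gal(Qb/ℚ)) (ι : Qb), Ki.Normal ∧
    IsOpen (Ki : Set Gal(Qb/ℚ)) ∧ Ki.index ≠ 0 ∧ ι ^ 2 = -1 ∧ (∀ σ ∈ Ki, σ ι = ι) ∧
    ∀ σ : Gal(Qb/ℚ), σ ^ 2 ∈ Ki := by
  have hcl : IsAlgClosed Qb := AlgebraicClosure.isAlgClosed ℚ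
  obtain ⟨ι, hι⟩ := IsAlgClosed.exists_pow_nat_eq (-1 : Qb) (n := 2) two_pos
  have hint : IsIntegral ℚ ι := (isAlg_Qb.isAlgebraic ι).isIntegral
  have hfd : FiniteDimensional ℚ ℚ⟮ι⟯ := adjoin.finiteDimensional hint
  have hmem : ∀ σ : Gal(Qb/ℚ), σ ∈ (ℚ⟮ι⟯).fixingSubgroup ↔ σ ι = ι := by
    intro σ
    rw [IntermediateField.mem_fixingSubgroup_iff]
    constructor
    · exact fun h => h ι (mem_adjoin_simple_self ℚ ι)
    · intro h x hx
      have h1 : ℚ⟮ι⟯ ≤ fixedField (zpowers σ) := by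
        rw [adjoin_simple_le_iff, mem_fixedField_iff]
        intro τ hτ
        have h3 : zpowers σ ≤ MulAction.stabilizer Gal(Qb/ℚ) ι := by
          rw [zpowers_le, MulAction.mem_stabilizer_iff]
          exact h
        exact MulAction.mem_stabilizer_iff.1 (h3 hτ)
      exact (mem_fixedField_iff _ _).1 (h1 hx) σ (mem_zpowers σ)
  refine ⟨(ℚ⟮ι⟯).fixingSubgroup, ι, ⟨?_⟩, (ℚ⟮ι⟯).fixingSubgroup_isOpen, index_ne_zero' _, hι,
    fun σ hσ => (hmem σ).1 hσ, fun σ => (hmem _).2 (sq_fix hι σ)⟩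
  intro σ hσ g
  rw [hmem] at hσ ⊢
  have h1 : (g⁻¹ ι) ^ 2 = ι ^ 2 := by
    rw [← map_pow, hι, map_neg, map_one]
  have h2 : σ (g⁻¹ ι) = g⁻¹ ι := by
    rcases sq_eq_sq_iff_eq_or_eq_neg.1 h1 with h | h
    · rw [h, hσ]
    · rw [h, map_neg, hσ]
  rw [AlgEquiv.mul_apply, AlgEquiv.mul_apply, h2, ← AlgEquiv.mul_apply, mul_inv_cancel,
    AlgEquiv.one_apply]

/-- the auxiliary subgroup -/
theorem exists_Ki' (𝓛 : Set ℕ) : ∃ Ki : Subgroup Gal(Qb/ℚ), Ki.Normal ∧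
    IsOpen (Ki : Set Gal(Qb/ℚ)) ∧ Ki.index ≠ 0 ∧ (∀ σ : Gal(Qb/ℚ), σ ^ 2 ∈ Ki) ∧
    PrimesIn 𝓛 Ki.index ∧ (2 ∈ 𝓛 → ∃ ι : Qb, ι ^ 2 = -1 ∧ ∀ σ ∈ Ki, σ ι = ι) := by
  by_cases h2 : 2 ∈ 𝓛
  · obtain ⟨Ki, ι, hKin, hKio, hKif, hι, hKiι, hsq⟩ := exists_Ki
    exact ⟨Ki, hKin, hKio, hKif, hsq, primesIn_sq h2 hKin hKif hsq, fun _ => ⟨ι, hι, hKiι⟩⟩
  · refine ⟨⊤, inferInstance, isOpen_univ, ?_, fun _ => trivial, ?_, fun h => absurd h h2⟩
    · rw [index_top]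
      exact one_ne_zero
    · intro q hq hd
      rw [index_top] at hd
      exact absurd (Nat.dvd_one.1 hd) hq.one_lt.ne'

/-- **The reduction.** -/
theorem all_muZero (hFIN : S_FIN) (hQQ : S_QQ) (hCHAR : S_CHAR2) (p : ℕ) [hp : Fact p.Prime]
    (hp2 : p ≠ 2) (R : ℕ → IntermediateField ℚ Qb) (hR : IsCycTower p R) (hd : FinDec R)
    (S : Finset ℕ) (hS : ∀ s ∈ S, s.Prime) (𝓛 : Set ℕ)
    (h : ∀ ℓ ∈ 𝓛, ℓ.Prime → ℓ ≠ p → ∀ M T : IntermediateField ℚ Qb, SplitStep (insert p S) ℓ M T →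
      (2 ∈ 𝓛 → TotallyComplex M) → PrimesIn 𝓛 (finrank ℚ (M ⊔ T : IntermediateField ℚ Qb)) →
      SameGrowth p R M (M ⊔ T))
    (F : IntermediateField ℚ Qb) (hF : IsLField 𝓛 F) : MuZero p R F := by
  classical
  have hRf : ∀ m, FiniteDimensional ℚ (R m) := fun m => (cyc_facts hp2 hR m).1
  have hDn : ∀ m, ((R m).fixingSubgroup).Normal := fun m => (cyc_facts hp2 hR m).2.1
  have hDi : ∀ m, ((R m).fixingSubgroup).index = p ^ m := fun m => (cyc_facts hp2 hR m).2.2.1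
  have hDo : ∀ m, IsOpen ((R m).fixingSubgroup : Set Gal(Qb/ℚ)) := fun m => by
    have := hRf m
    exact (R m).fixingSubgroup_isOpen
  obtain ⟨Ki, hKin, hKio, hKif, hsq, hKiL, hKiι⟩ := exists_Ki' 𝓛
  have hmain := mu0_of_steps (p := p) (I := inertia) inertia_conj
    (Dm := fun m => (R m).fixingSubgroup) hDn
    (fun K hKo hKf => ramified_of_finDec hd hKo hKf)
    ⟨1, fun m => by
      rw [top_inf_eq]
      exact hQQ p hp2 R hR m⟩ (Pr := fun K => PrimesIn 𝓛 K.index)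
      (fun K L hKL hK q hq hd => hK q hq (hd.trans (index_dvd_of_le hKL))) (by
    intro K hKn hKo hKf hKL ℓ hℓ hℓp hℓK
    set K₁ := K ⊓ Ki with hK₁
    have hK₁n : K₁.Normal := inferInstance
    have hK₁o : IsOpen (K₁ : Set Gal(Qb/ℚ)) := by
      rw [hK₁, Subgroup.coe_inf]
      exact hKo.inter hKio
    have hK₁f : K₁.index ≠ 0 := index_inf_ne_zero hKf hKif
    -- the ramified primes
    have hfd₁ := finite_fixed hK₁o hK₁f
    obtain ⟨c₀, hc₀, hc₀A⟩ := exists_bad (fixedField K₁)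
    rw [fix_fixed hK₁o] at hc₀A
    obtain ⟨χ, hχo, hχk, hsp', hI', hc⟩ := hCHAR ℓ hℓ (insert p S ∪ c₀.primeFactors) (by
      intro s hs
      rcases Finset.mem_union.1 hs with hs | hs
      · rcases Finset.mem_insert.1 hs with rfl | hs
        · exact hp.1
        · exact hS s hs
      · exact Nat.prime_of_mem_primeFactors hs) K₁ hK₁o hK₁n hK₁f
    have hsp : ∀ A : ValuationSubring Qb, (∃ s ∈ insert p S, (s : Qb) ∈ A.nonunits) →
        ∀ σ : Gal(Qb/ℚ), σ • A = A → χ σ = 1 := by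
      rintro A ⟨s, hs, hsA⟩
      exact hsp' A ⟨s, Finset.mem_union_left _ hs, hsA⟩
    have hI : ∀ A : ValuationSubring Qb, inertia A ≤ K₁ ⊓ χ.ker ∨
        (∀ σ : Gal(Qb/ℚ), σ • A = A → χ σ = 1) ∨ ∀ σ : Gal(Qb/ℚ), σ • A = A → σ ∈ K₁ := by
      intro A
      by_cases h1 : inertia A ≤ K₁
      · rcases hI' A with h2 | h2
        · exact Or.inl (le_inf h1 h2)
        · exact Or.inr (Or.inr h2)
      · obtain ⟨σ, hσ, hσK⟩ := SetLike.not_le_iff_exists.1 h1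
        obtain ⟨s, hs, hsA⟩ := exists_prime hc₀ (hc₀A A σ hσ hσK)
        exact Or.inr (Or.inl (hsp' A ⟨s, Finset.mem_union_right _ hs, hsA⟩))
    have hX : (K₁ ⊓ χ.ker).Normal := inferInstance
    set X := K₁ ⊓ χ.ker with hXdef
    have hXo : IsOpen (X : Set Gal(Qb/ℚ)) := by
      rw [hXdef, Subgroup.coe_inf]
      exact hK₁o.inter hχo
    have hχi : χ.ker.index = ℓ := index_chi hℓ χ (by
      obtain ⟨k, -, hk⟩ := hχk
      exact ⟨k, hk⟩)
    have hXf : X.index ≠ 0 := by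
      refine index_inf_ne_zero hK₁f ?_
      rw [hχi]
      exact hℓ.ne_zero
    have hXL : PrimesIn 𝓛 X.index := by
      refine primesIn_inf inferInstance (primesIn_inf hKin hKL hKiL) ?_
      intro q hq hqd
      rw [hχi] at hqd
      rw [(Nat.prime_dvd_prime_iff_eq hq hℓ).1 hqd]
      exact hKL ℓ hℓ hℓK
    have hXK : X ≤ K := inf_le_left.trans inf_le_left
    -- the constants of the finitely many steps
    set 𝓨 := (finite_ge hX hXf).toFinset with h𝓨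
    have hc1 : ∀ Y : Subgroup Gal(Qb/ℚ), ∃ c, SplitStep (insert p S) ℓ (fixedField Y)
        (fixedField χ.ker) → (2 ∈ 𝓛 → TotallyComplex (fixedField Y)) →
        fixedField Y ⊔ fixedField χ.ker = fixedField X → ∀ m D, DegLe p (fixedField Y ⊔ R m) D →
          DegLe p (fixedField X ⊔ R m) (c * D) := by
      intro Y
      by_cases hY : SplitStep (insert p S) ℓ (fixedField Y) (fixedField χ.ker) ∧
        (2 ∈ 𝓛 → TotallyComplex (fixedField Y)) ∧
        fixedField Y ⊔ fixedField χ.ker = fixedField X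
      · obtain ⟨c, hc⟩ := h ℓ (hKL ℓ hℓ hℓK) hℓ hℓp _ _ hY.1 hY.2.1 (by
          rw [hY.2.2, finrank_eq_fixingSubgroup_index, fix_fixed hXo]
          exact hXL)
        rw [hY.2.2] at hc
        exact ⟨c, fun _ _ _ => hc⟩
      · exact ⟨0, fun h1 h2 h3 => absurd ⟨h1, h2, h3⟩ hY⟩
    choose c hc2 using hc1
    refine ⟨X.index + 𝓨.sup c, fun m γ hγD hγK hγℓ => ?_⟩
    have hγD' : γ ∈ (R m).fixingSubgroup := hγD
    obtain ⟨γ', hγ'D, hγγ', hγ'ℓ, hχγ'⟩ := exists_elt (D := (R m).fixingSubgroup) hK₁ hK₁n (hDn m)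
      hsq hℓ (n := p ^ m) (fun hdvd => hℓp ((Nat.prime_dvd_prime_iff_eq hℓ hp.1).1
        (hℓ.dvd_of_dvd_pow hdvd))) (hDi m) χ hχk hγD' hγℓ
    have hγ'K : γ' ∉ K := by
      intro h1
      apply hγK
      have h2 : γ = γ' * (γ⁻¹ * γ')⁻¹ := by group
      rw [h2]
      exact K.mul_mem h1 (K.inv_mem hγγ')
    have hγ'X : γ' ^ ℓ ∈ X := ⟨hγ'ℓ, chi_pow χ γ'⟩
    obtain ⟨hstep0, hstep, hstep1⟩ := splitStep_of hℓ hK₁ hKn hK₁n hK₁o hK₁f χ hχo hsp hI hc
      hγ'K hγ'ℓ hχγ'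
    have hYo : IsOpen ((X ⊔ zpowers γ' : Subgroup _) : Set Gal(Qb/ℚ)) :=
      isOpen_mono le_sup_left hXo
    have hfX := fix_fixed hXo
    have hfY := fix_fixed hYo
    have hXDn : (X ⊓ (R m).fixingSubgroup).Normal := by
      have := hDn m
      infer_instance
    have hXDo : IsOpen ((X ⊓ (R m).fixingSubgroup : Subgroup _) : Set Gal(Qb/ℚ)) := by
      rw [Subgroup.coe_inf]
      exact hXo.inter (hDo m)
    have hDf : ((R m).fixingSubgroup).index ≠ 0 := by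
      rw [hDi]
      exact pow_ne_zero _ hp.1.ne_zero
    have hXDf : (X ⊓ (R m).fixingSubgroup).index ≠ 0 := index_inf_ne_zero hXf hDf
    have hmod := sup_inf_of_normal hX hγ'D
    have hri : (X ⊓ (R m).fixingSubgroup).relIndex (K ⊓ (R m).fixingSubgroup) =
        X.relIndex (K ⊓ (R m).fixingSubgroup) := by
      rw [← inf_relIndex_right, ← inf_relIndex_right X]
      congr 1
      ext x
      simp only [Subgroup.mem_inf]
      tauto
    have hri2 : X.relIndex (K ⊓ (R m).fixingSubgroup) ∣ X.index := relIndex_dvd_index_of_normal X _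
    have hri3 : X.relIndex (K ⊓ (R m).fixingSubgroup) ≠ 0 := fun h0 => by
      rw [h0] at hri2
      exact hXf (Nat.eq_zero_of_zero_dvd hri2)
    refine ⟨X ⊓ (R m).fixingSubgroup, inf_le_inf_right _ hXK, ?_, ?_, hXDo, γ', hγ'D,
      ⟨hγγ', Subgroup.mul_mem _ (Subgroup.inv_mem _ hγD') hγ'D⟩,
      fun x hx => hXDn.conj_mem x hx γ', ?_, ?_, ?_⟩
    · rw [hri]
      exact hri3
    · rw [hri]
      exact (Nat.le_of_dvd (Nat.pos_of_ne_zero hXf) hri2).trans (Nat.le_add_right _ _)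
    · rw [relIndex_cyclic hXDn]
      intro hdvd
      have h1 : orderOf (γ' : Gal(Qb/ℚ) ⧸ (X ⊓ (R m).fixingSubgroup)) ∣ ℓ := by
        refine orderOf_dvd_of_pow_eq_one ?_
        rw [← QuotientGroup.mk_pow]
        exact (QuotientGroup.eq_one_iff _).2 ⟨hγ'X, pow_mem hγ'D ℓ⟩
      exact hℓp ((Nat.prime_dvd_prime_iff_eq hp.1 hℓ).1 (hdvd.trans h1)).symm
    · refine hFIN p hp.1 _ (isOpen_mono le_sup_left hXDo) fun h0 => hXDf ?_
      rw [← relIndex_mul_index (H := X ⊓ (R m).fixingSubgroup)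
        (K := X ⊓ (R m).fixingSubgroup ⊔ zpowers γ') le_sup_left, h0, mul_zero]
    · intro E hE
      rw [← hmod] at hE
      have hYf : (X ⊔ zpowers γ').index ≠ 0 := fun h0 => hXf (by
        rw [← relIndex_mul_index (H := X) (K := X ⊔ zpowers γ') le_sup_left, h0, mul_zero])
      have hfd1 := finite_fixed hXo hXf
      have hfd2 := finite_fixed hYo hYf
      have := hRf m
      have h1 : DegLe p (fixedField (X ⊔ zpowers γ') ⊔ R m) E := by
        rw [← rankLe_iff, fixingSubgroup_sup, hfY]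
        exact hE
      have h2 := hc2 _ hstep (fun h => hstep1 (hKiι h)) hstep0 m E h1
      rw [← rankLe_iff, fixingSubgroup_sup, hfX] at h2
      refine h2.mono (Nat.mul_le_mul_right _ ?_)
      refine (Finset.le_sup (f := c) ?_).trans (Nat.le_add_left _ _)
      rw [h𝓨, Set.Finite.mem_toFinset, Set.mem_ofPred_eq, hXdef]
      exact le_sup_left)
  -- the given number field
  obtain ⟨N, hFN, hNf, hNg, hNL⟩ := hF
  have hNn : N.fixingSubgroup.Normal := by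
    refine ⟨fun σ hσ g => ?_⟩
    rw [IntermediateField.mem_fixingSubgroup_iff] at hσ ⊢
    intro x hx
    rw [AlgEquiv.mul_apply, AlgEquiv.mul_apply, hσ _ (hNg g⁻¹ x hx), ← AlgEquiv.mul_apply,
      mul_inv_cancel, AlgEquiv.one_apply]
  have hFf : FiniteDimensional ℚ F :=
    Submodule.finiteDimensional_of_le (S₁ := Subalgebra.toSubmodule F.toSubalgebra)
      (S₂ := Subalgebra.toSubmodule N.toSubalgebra) hFN
  rw [← mu_iff hRf]
  refine Mu0.of_le hDo hNn (fixingSubgroup_le hFN) N.fixingSubgroup_isOpen (index_ne_zero' N)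
    (hmain _ _ hNn N.fixingSubgroup_isOpen (index_ne_zero' N) ?_ rfl)
  show PrimesIn 𝓛 N.fixingSubgroup.index
  rw [← finrank_eq_fixingSubgroup_index]
  exact hNL

/-- **The equivalence.** -/
theorem muZero_iff_steps (hFIN : S_FIN) (hQQ : S_QQ) (hCHAR : S_CHAR2) (p : ℕ) [hp : Fact p.Prime]
    (hp2 : p ≠ 2) (R : ℕ → IntermediateField ℚ Qb) (hR : IsCycTower p R) (hd : FinDec R)
    (S : Finset ℕ) (hS : ∀ s ∈ S, s.Prime) (𝓛 : Set ℕ) :
    (∀ F : IntermediateField ℚ Qb, IsLField 𝓛 F → MuZero p R F) ↔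
    (∀ ℓ ∈ 𝓛, ℓ.Prime → ℓ ≠ p → ∀ M T : IntermediateField ℚ Qb, SplitStep (insert p S) ℓ M T →
      (2 ∈ 𝓛 → TotallyComplex M) → PrimesIn 𝓛 (finrank ℚ (M ⊔ T : IntermediateField ℚ Qb)) →
      SameGrowth p R M (M ⊔ T)) := by
  refine ⟨fun h ℓ _ hℓ hℓp M T hs _ hL => ?_, fun h F hF =>
    all_muZero hFIN hQQ hCHAR p hp2 R hR hd S hS 𝓛 h F hF⟩
  have hM := hs.finM
  have hN : FiniteDimensional ℚ (M ⊔ T : IntermediateField ℚ Qb) := by
    apply FiniteDimensional.of_finrank_pos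
    rw [hs.degree]
    exact Nat.mul_pos hℓ.pos finrank_pos
  obtain ⟨C, hC⟩ := h (M ⊔ T) ⟨M ⊔ T, le_rfl, hN, hs.gal, hL⟩
  refine ⟨C, fun m D hD => ?_⟩
  have hRm := (cyc_facts hp2 hR m).1
  have h1 : 1 ≤ D := degLe_pos hD
  have h2 := hC m
  rw [← rankLe_iff] at h2 ⊢
  exact h2.mono (Nat.le_mul_of_pos_right _ h1)

end Pool.Agent.K4H43.IW
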