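import Pool.Agent.K4H43.IW.Asm

/-!
# The first layers of cyclotomic `ℤ_ℓ`-extensions
-/

set_option autoImplicit false

namespace Pool.Agent.K4H43.IW

open Subgroup Module IntermediateField Pool.Agent.Q60.MU Pool.Agent.K4H24.IW
open scoped Pointwise

/-- `B 0, B 1, …` are the layers of a `ℤ_ℓ`-extension of `ℚ` (the cyclotomic one, by the theorem of
Kronecker and Weber): an increasing sequence of cyclic number fields of degrees `ℓ ^ k`. -/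
def IsZExt (ℓ : ℕ) (B : ℕ → IntermediateField ℚ Qb) : Prop :=
  ∀ k, finrank ℚ (B k) = ℓ ^ k ∧ B k ≤ B (k + 1) ∧
    (∀ σ : Gal(Qb/ℚ), ∀ x ∈ B k, σ x ∈ B k) ∧
    ∃ g : Gal(Qb/ℚ), ∀ σ : Gal(Qb/ℚ), ∃ i : ℤ, g ^ i * σ ∈ (B k).fixingSubgroup

theorem normal_of_gal {N : IntermediateField ℚ Qb} (hN : ∀ σ : Gal(Qb/ℚ), ∀ x ∈ N, σ x ∈ N) :
    N.fixingSubgroup.Normal := by
  refine ⟨fun σ hσ g => ?_⟩
  rw [IntermediateField.mem_fixingSubgroup_iff] at hσ ⊢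
  intro x hx
  rw [AlgEquiv.mul_apply, AlgEquiv.mul_apply, hσ _ (hN g⁻¹ x hx), ← AlgEquiv.mul_apply,
    mul_inv_cancel, AlgEquiv.one_apply]

theorem gal_of_normal {W : Subgroup Gal(Qb/ℚ)} (hW : W.Normal) (σ : Gal(Qb/ℚ)) (x : Qb)
    (hx : x ∈ fixedField W) : σ x ∈ fixedField W := by
  rw [mem_fixedField_iff] at hx ⊢
  intro w hw
  have h1 := hx _ (hW.conj_mem w hw σ⁻¹)
  have h2 : w (σ x) = σ ((σ⁻¹ * w * σ⁻¹⁻¹) x) := by
    rw [← AlgEquiv.mul_apply, ← AlgEquiv.mul_apply]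
    congr 1
    group
  rw [h2, h1]

section zext

variable {ℓ : ℕ} {B : ℕ → IntermediateField ℚ Qb}

theorem IsZExt.fin (hℓ : ℓ.Prime) (hB : IsZExt ℓ B) (k : ℕ) : FiniteDimensional ℚ (B k) := by
  apply FiniteDimensional.of_finrank_pos
  rw [(hB k).1]
  exact pow_pos hℓ.pos k

theorem IsZExt.normal (hB : IsZExt ℓ B) (k : ℕ) : (B k).fixingSubgroup.Normal :=
  normal_of_gal (hB k).2.2.1

theorem IsZExt.index (hB : IsZExt ℓ B) (k : ℕ) : (B k).fixingSubgroup.index = ℓ ^ k := by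
  rw [← finrank_eq_fixingSubgroup_index, (hB k).1]

theorem IsZExt.le (hB : IsZExt ℓ B) (k : ℕ) :
    (B (k + 1)).fixingSubgroup ≤ (B k).fixingSubgroup := fixingSubgroup_le (hB k).2.1

theorem IsZExt.up (hℓ : ℓ.Prime) (hB : IsZExt ℓ B) (k : ℕ) {γ : Gal(Qb/ℚ)}
    (hγ : γ ∈ (B k).fixingSubgroup) : γ ^ ℓ ∈ (B (k + 1)).fixingSubgroup := by
  have h1 := relIndex_mul_index (hB.le k)
  rw [hB.index, hB.index, pow_succ'] at h1
  have h2 : (B (k + 1)).fixingSubgroup.relIndex (B k).fixingSubgroup = ℓ :=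
    Nat.eq_of_mul_eq_mul_right (pow_pos hℓ.pos k) h1
  have hn := hB.normal (k + 1)
  have h3 := pow_index_mem ((B (k + 1)).fixingSubgroup.subgroupOf (B k).fixingSubgroup) ⟨γ, hγ⟩
  have h4 : ((B (k + 1)).fixingSubgroup.subgroupOf (B k).fixingSubgroup).index = ℓ := h2
  rw [h4, mem_subgroupOf] at h3
  exact h3

theorem IsZExt.down (hℓ : ℓ.Prime) (hB : IsZExt ℓ B) (k : ℕ) {γ : Gal(Qb/ℚ)}
    (hγ : γ ^ ℓ ∈ (B (k + 1)).fixingSubgroup) : γ ∈ (B k).fixingSubgroup := by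
  have hn := hB.normal (k + 1)
  have hn' := hB.normal k
  obtain ⟨g, hg⟩ := (hB (k + 1)).2.2.2
  have hgen : ∀ x : Gal(Qb/ℚ) ⧸ (B (k + 1)).fixingSubgroup,
      x ∈ zpowers (g : Gal(Qb/ℚ) ⧸ (B (k + 1)).fixingSubgroup) := by
    intro x
    obtain ⟨y, rfl⟩ := QuotientGroup.mk_surjective x
    obtain ⟨i, hi⟩ := hg y
    rw [← QuotientGroup.eq_one_iff, QuotientGroup.mk_mul, QuotientGroup.mk_zpow] at hi
    refine mem_zpowers_iff.2 ⟨-i, ?_⟩
    rw [zpow_neg]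
    exact inv_eq_of_mul_eq_one_right hi
  have hord : orderOf (g : Gal(Qb/ℚ) ⧸ (B (k + 1)).fixingSubgroup) = ℓ ^ (k + 1) := by
    rw [orderOf_eq_card_of_forall_mem_zpowers hgen, ← hB.index (k + 1)]
    rfl
  obtain ⟨i, hi⟩ := hg γ
  have h1 : (g : Gal(Qb/ℚ) ⧸ (B (k + 1)).fixingSubgroup) ^ (i * ℓ) = 1 := by
    have h2 : ((g ^ i * γ : Gal(Qb/ℚ)) : Gal(Qb/ℚ) ⧸ (B (k + 1)).fixingSubgroup) = 1 :=
      (QuotientGroup.eq_one_iff _).2 hi
    have h3 : ((γ ^ ℓ : Gal(Qb/ℚ)) : Gal(Qb/ℚ) ⧸ (B (k + 1)).fixingSubgroup) = 1 :=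
      (QuotientGroup.eq_one_iff _).2 hγ
    rw [QuotientGroup.mk_mul, QuotientGroup.mk_zpow] at h2
    rw [QuotientGroup.mk_pow] at h3
    rw [eq_inv_of_mul_eq_one_right h2, inv_pow, inv_eq_one] at h3
    rw [zpow_mul, zpow_natCast]
    exact h3
  rw [← orderOf_dvd_iff_zpow_eq_one, hord, pow_succ] at h1
  push_cast at h1
  have h4 : ((ℓ : ℤ) ^ k) ∣ i :=
    Int.dvd_of_mul_dvd_mul_right (by exact_mod_cast hℓ.ne_zero) h1
  have h5 : g ^ i ∈ (B k).fixingSubgroup := by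
    have h6 : g ^ (ℓ ^ k) ∈ (B k).fixingSubgroup := by
      rw [← hB.index k]
      exact pow_index_mem _ g
    refine zpow_mem_of_dvd h6 ?_
    push_cast
    exact h4
  have h6 : γ = (g ^ i)⁻¹ * (g ^ i * γ) := by rw [inv_mul_cancel_left]
  rw [h6]
  exact mul_mem (inv_mem h5) (hB.le k hi)

theorem IsZExt.exists_k (hℓ : ℓ.Prime) (hB : IsZExt ℓ B) {K : Subgroup Gal(Qb/ℚ)}
    (hK : K.index ≠ 0) :
    ∃ k, K ≤ (B k).fixingSubgroup ∧ ¬ K ≤ (B (k + 1)).fixingSubgroup := by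
  classical
  have hex : ∃ k, ¬ K ≤ (B k).fixingSubgroup := by
    refine ⟨K.index, fun h => ?_⟩
    have h1 := index_dvd_of_le h
    rw [hB.index] at h1
    exact absurd (Nat.le_of_dvd (Nat.pos_of_ne_zero hK) h1) (not_le.2 (Nat.lt_pow_self hℓ.one_lt))
  have h0 : Nat.find hex ≠ 0 := by
    intro h
    have h1 := Nat.find_spec hex
    rw [h] at h1
    apply h1
    have h2 := hB.index 0
    rw [pow_zero, index_eq_one] at h2
    rw [h2]
    exact le_top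
  obtain ⟨k, hk⟩ := Nat.exists_eq_succ_of_ne_zero h0
  refine ⟨k, ?_, ?_⟩
  · by_contra h
    have h1 := Nat.find_min' hex h
    rw [hk] at h1
    exact absurd h1 (by omega)
  · have h1 := Nat.find_spec hex
    rw [hk] at h1
    exact h1

end zext

/-- the relative bound for a normal subgroup `X` -/
theorem relBound_of (hFIN : S_FIN) {p : ℕ} (hp : p.Prime) {R : ℕ → IntermediateField ℚ Qb} {m : ℕ}
    (hDn : (R m).fixingSubgroup.Normal) (hDi : (R m).fixingSubgroup.index = p ^ m)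
    (hDo : IsOpen ((R m).fixingSubgroup : Set Gal(Qb/ℚ)))
    {K X : Subgroup Gal(Qb/ℚ)} (hX : X.Normal) (hXo : IsOpen (X : Set Gal(Qb/ℚ)))
    (hXf : X.index ≠ 0) (hXK : X ≤ K) {ℓ : ℕ} (hℓ : ℓ.Prime) (hℓp : ℓ ≠ p) {γ γ' : Gal(Qb/ℚ)}
    (hγD : γ ∈ (R m).fixingSubgroup) (hγ'D : γ' ∈ (R m).fixingSubgroup) (hγγ' : γ⁻¹ * γ' ∈ K)
    (hγ'X : γ' ^ ℓ ∈ X) {C C' : ℕ} (hC : X.index ≤ C') (hCC' : C ≤ C')
    (h : ∀ E, RankLe p inertia ((X ⊔ zpowers γ') ⊓ (R m).fixingSubgroup) E →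
      RankLe p inertia (X ⊓ (R m).fixingSubgroup) (C * E)) :
    RelBound p inertia (K ⊓ (R m).fixingSubgroup) (R m).fixingSubgroup γ C' := by
  have hXDn : (X ⊓ (R m).fixingSubgroup).Normal := inferInstance
  have hXDo : IsOpen ((X ⊓ (R m).fixingSubgroup : Subgroup _) : Set Gal(Qb/ℚ)) := by
    rw [Subgroup.coe_inf]
    exact hXo.inter hDo
  have hDf : ((R m).fixingSubgroup).index ≠ 0 := by
    rw [hDi]
    exact pow_ne_zero _ hp.ne_zero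
  have hXDf : (X ⊓ (R m).fixingSubgroup).index ≠ 0 := index_inf_ne_zero hXf hDf
  have hmod := sup_inf_of_normal hX hγ'D
  have hri : (X ⊓ (R m).fixingSubgroup).relIndex (K ⊓ (R m).fixingSubgroup) =
      X.relIndex (K ⊓ (R m).fixingSubgroup) := by
    rw [← inf_relIndex_right, ← inf_relIndex_right X]
    congr 1
    ext x
    simp only [Subgroup.mem_inf]
    tauto
  have hri2 : X.relIndex (K ⊓ (R m).fixingSubgroup) ∣ X.index := relIndex_dvd_index_of_normal X _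
  have hri3 : X.relIndex (K ⊓ (R m).fixingSubgroup) ≠ 0 := fun h0 => by
    rw [h0] at hri2
    exact hXf (Nat.eq_zero_of_zero_dvd hri2)
  refine ⟨X ⊓ (R m).fixingSubgroup, inf_le_inf_right _ hXK, ?_, ?_, hXDo, γ', hγ'D,
    ⟨hγγ', Subgroup.mul_mem _ (Subgroup.inv_mem _ hγD) hγ'D⟩,
    fun x hx => hXDn.conj_mem x hx γ', ?_, ?_, ?_⟩
  · rw [hri]
    exact hri3
  · rw [hri]
    exact (Nat.le_of_dvd (Nat.pos_of_ne_zero hXf) hri2).trans hC
  · rw [relIndex_cyclic hXDn]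
    intro hdvd
    have h1 : orderOf (γ' : Gal(Qb/ℚ) ⧸ (X ⊓ (R m).fixingSubgroup)) ∣ ℓ := by
      refine orderOf_dvd_of_pow_eq_one ?_
      rw [← QuotientGroup.mk_pow]
      exact (QuotientGroup.eq_one_iff _).2 ⟨hγ'X, pow_mem hγ'D ℓ⟩
    exact hℓp ((Nat.prime_dvd_prime_iff_eq hp hℓ).1 (hdvd.trans h1)).symm
  · refine hFIN p hp _ (isOpen_mono le_sup_left hXDo) fun h0 => hXDf ?_
    rw [← relIndex_mul_index (H := X ⊓ (R m).fixingSubgroup)
      (K := X ⊓ (R m).fixingSubgroup ⊔ zpowers γ') le_sup_left, h0, mul_zero]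
  · intro E hE
    rw [← hmod] at hE
    exact (h E hE).mono (Nat.mul_le_mul_right _ hCC')

theorem zstep {ℓ : ℕ} (hℓ : ℓ.Prime) {B : ℕ → IntermediateField ℚ Qb} (hB : IsZExt ℓ B)
    {X : Subgroup Gal(Qb/ℚ)} (hX : X.Normal) (hXo : IsOpen (X : Set Gal(Qb/ℚ)))
    (hXf : X.index ≠ 0) {j : ℕ} (hXj : X ≤ (B (j + 1)).fixingSubgroup) {γ : Gal(Qb/ℚ)}
    (hγX : γ ^ ℓ ∈ X) (hγ1 : γ ∈ (B j).fixingSubgroup) (hγ2 : γ ∉ (B (j + 1)).fixingSubgroup) :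
    FiniteDimensional ℚ (fixedField (X ⊔ zpowers γ)) ∧ B j ≤ fixedField (X ⊔ zpowers γ) ∧
      ¬ B (j + 1) ≤ fixedField (X ⊔ zpowers γ) ∧
      fixedField (X ⊔ zpowers γ) ⊔ B (j + 1) = fixedField X := by
  have hYo : IsOpen ((X ⊔ zpowers γ : Subgroup _) : Set Gal(Qb/ℚ)) := isOpen_mono le_sup_left hXo
  have hYf : (X ⊔ zpowers γ).index ≠ 0 := fun h0 => hXf (by
    rw [← relIndex_mul_index (H := X) (K := X ⊔ zpowers γ) le_sup_left, h0, mul_zero])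
  have hfY := fix_fixed hYo
  have hn := hB.normal (j + 1)
  refine ⟨finite_fixed hYo hYf, ?_, ?_, ?_⟩
  · rw [← InfiniteGalois.fixedField_fixingSubgroup (B j)]
    exact fixedField_antitone (sup_le (hXj.trans (hB.le j)) (zpowers_le.2 hγ1))
  · intro h
    have h1 := fixingSubgroup_le h
    rw [hfY] at h1
    exact hγ2 (h1 (mem_sup_right (mem_zpowers γ)))
  · rw [← InfiniteGalois.fixedField_fixingSubgroup (fixedField (X ⊔ zpowers γ) ⊔ B (j + 1)),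
      fixingSubgroup_sup, hfY]
    congr 1
    apply le_antisymm
    · rintro σ ⟨h1, h2⟩
      obtain ⟨a, ha, z, hz, rfl⟩ := mem_sup_of_normal_left.1 h1
      obtain ⟨i, rfl⟩ := mem_zpowers_iff.1 hz
      refine X.mul_mem ha (zpow_mem_of_dvd hγX ?_)
      refine dvd_of_zpow_mem hn hℓ hγ2 (hXj hγX) (j := i) ?_
      have h3 := Subgroup.mul_mem _ (Subgroup.inv_mem _ (hXj ha)) h2
      rwa [inv_mul_cancel_left] at h3
    · exact le_inf le_sup_left hXj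

/-- **The reduction, first layers.** -/
theorem all_muZero_cyc (hFIN : S_FIN) (hQQ : S_QQ) (p : ℕ) [hp : Fact p.Prime]
    (hp2 : p ≠ 2) (R : ℕ → IntermediateField ℚ Qb) (hR : IsCycTower p R) (hd : FinDec R)
    (B : ℕ → ℕ → IntermediateField ℚ Qb) (hB : ∀ ℓ : ℕ, ℓ.Prime → ℓ ≠ p → IsZExt ℓ (B ℓ))
    (𝓛 : Set ℕ)
    (h : ∀ ℓ ∈ 𝓛, ℓ.Prime → ℓ ≠ p → ∀ (k : ℕ) (M : IntermediateField ℚ Qb),
      FiniteDimensional ℚ M → B ℓ k ≤ M → ¬ B ℓ (k + 1) ≤ M →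
      (∀ σ : Gal(Qb/ℚ), ∀ x ∈ M ⊔ B ℓ (k + 1), σ x ∈ M ⊔ B ℓ (k + 1)) →
      PrimesIn 𝓛 (finrank ℚ (M ⊔ B ℓ (k + 1) : IntermediateField ℚ Qb)) →
      SameGrowth p R M (M ⊔ B ℓ (k + 1)))
    (F : IntermediateField ℚ Qb) (hF : IsLField 𝓛 F) : MuZero p R F := by
  classical
  have hRf : ∀ m, FiniteDimensional ℚ (R m) := fun m => (cyc_facts hp2 hR m).1
  have hDn : ∀ m, ((R m).fixingSubgroup).Normal := fun m => (cyc_facts hp2 hR m).2.1
  have hDi : ∀ m, ((R m).fixingSubgroup).index = p ^ m := fun m => (cyc_facts hp2 hR m).2.2.1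
  have hDo : ∀ m, IsOpen ((R m).fixingSubgroup : Set Gal(Qb/ℚ)) := fun m => by
    have := hRf m
    exact (R m).fixingSubgroup_isOpen
  have hmain := mu0_of_steps (p := p) (I := inertia) inertia_conj
    (Dm := fun m => (R m).fixingSubgroup) hDn
    (fun K hKo hKf => ramified_of_finDec hd hKo hKf)
    ⟨1, fun m => by
      rw [top_inf_eq]
      exact hQQ p hp2 R hR m⟩ (Pr := fun K => PrimesIn 𝓛 K.index)
      (fun K L hKL hK q hq hd => hK q hq (hd.trans (index_dvd_of_le hKL))) (by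
    intro K hKn hKo hKf hKL ℓ hℓ hℓp hℓK
    have hBℓ := hB ℓ hℓ hℓp
    have hℓL : ℓ ∈ 𝓛 := hKL ℓ hℓ hℓK
    -- the constants
    have key : ∀ X : Subgroup Gal(Qb/ℚ), X.Normal → IsOpen (X : Set Gal(Qb/ℚ)) → X.index ≠ 0 →
        PrimesIn 𝓛 X.index → ∀ j, X ≤ (B ℓ (j + 1)).fixingSubgroup → ∃ C, ∀ m,
        ∀ γ' : Gal(Qb/ℚ), γ' ^ ℓ ∈ X → γ' ∈ (B ℓ j).fixingSubgroup →
        γ' ∉ (B ℓ (j + 1)).fixingSubgroup → ∀ E,
        RankLe p inertia ((X ⊔ zpowers γ') ⊓ (R m).fixingSubgroup) E →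
        RankLe p inertia (X ⊓ (R m).fixingSubgroup) (C * E) := by
      intro X hX hXo hXf hXL j hXj
      have hc1 : ∀ Y : Subgroup Gal(Qb/ℚ), ∃ c, FiniteDimensional ℚ (fixedField Y) →
          B ℓ j ≤ fixedField Y → ¬ B ℓ (j + 1) ≤ fixedField Y →
          fixedField Y ⊔ B ℓ (j + 1) = fixedField X →
          ∀ m D, DegLe p (fixedField Y ⊔ R m) D → DegLe p (fixedField X ⊔ R m) (c * D) := by
        intro Y
        by_cases hY : FiniteDimensional ℚ (fixedField Y) ∧ B ℓ j ≤ fixedField Y ∧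
            ¬ B ℓ (j + 1) ≤ fixedField Y ∧ fixedField Y ⊔ B ℓ (j + 1) = fixedField X
        · obtain ⟨c, hc⟩ := h ℓ hℓL hℓ hℓp j (fixedField Y) hY.1 hY.2.1 hY.2.2.1 (by
            rw [hY.2.2.2]
            exact fun σ x hx => gal_of_normal hX σ x hx) (by
            rw [hY.2.2.2, finrank_eq_fixingSubgroup_index, fix_fixed hXo]
            exact hXL)
          rw [hY.2.2.2] at hc
          exact ⟨c, fun _ _ _ _ => hc⟩
        · exact ⟨0, fun h1 h2 h3 h4 => absurd ⟨h1, h2, h3, h4⟩ hY⟩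
      choose c hc2 using hc1
      refine ⟨(finite_ge hX hXf).toFinset.sup c, fun m γ' hγ'X hγ1 hγ2 E hE => ?_⟩
      obtain ⟨s1, s2, s3, s4⟩ := zstep hℓ hBℓ hX hXo hXf hXj hγ'X hγ1 hγ2
      have hYo : IsOpen ((X ⊔ zpowers γ' : Subgroup _) : Set Gal(Qb/ℚ)) :=
        isOpen_mono le_sup_left hXo
      have hfd1 := finite_fixed hXo hXf
      have := hRf m
      have h1 : DegLe p (fixedField (X ⊔ zpowers γ') ⊔ R m) E := by
        rw [← rankLe_iff, fixingSubgroup_sup, fix_fixed hYo]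
        exact hE
      have h2 := hc2 _ s1 s2 s3 s4 m E h1
      rw [← rankLe_iff, fixingSubgroup_sup, fix_fixed hXo] at h2
      refine h2.mono (Nat.mul_le_mul_right _ (Finset.le_sup (f := c) ?_))
      rw [Set.Finite.mem_toFinset, Set.mem_ofPred_eq]
      exact le_sup_left
    obtain ⟨k, hk1, hk2⟩ := hBℓ.exists_k hℓ hKf
    have hn1 := hBℓ.normal (k + 1)
    -- the first case
    have hfin1 := hBℓ.fin hℓ (k + 1)
    have hHo : IsOpen ((B ℓ (k + 1)).fixingSubgroup : Set Gal(Qb/ℚ)) :=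
      (B ℓ (k + 1)).fixingSubgroup_isOpen
    have hHf : (B ℓ (k + 1)).fixingSubgroup.index ≠ 0 := by
      rw [hBℓ.index]
      exact pow_ne_zero _ hℓ.ne_zero
    have hXn : (K ⊓ (B ℓ (k + 1)).fixingSubgroup).Normal := inferInstance
    have hXo : IsOpen ((K ⊓ (B ℓ (k + 1)).fixingSubgroup : Subgroup _) : Set Gal(Qb/ℚ)) := by
      rw [Subgroup.coe_inf]
      exact hKo.inter hHo
    have hXf : (K ⊓ (B ℓ (k + 1)).fixingSubgroup).index ≠ 0 := index_inf_ne_zero hKf hHf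
    have hXL : PrimesIn 𝓛 (K ⊓ (B ℓ (k + 1)).fixingSubgroup).index := by
      refine primesIn_inf hn1 hKL ?_
      intro q hq hqd
      rw [hBℓ.index] at hqd
      rw [(Nat.prime_dvd_prime_iff_eq hq hℓ).1 (hq.dvd_of_dvd_pow hqd)]
      exact hℓL
    obtain ⟨C₁, hC₁⟩ := key _ hXn hXo hXf hXL k inf_le_right
    -- the second case
    obtain ⟨C₂, hC₂⟩ : ∃ C₂, ∀ j, k = j + 1 → ∀ m,
        ∀ γ' : Gal(Qb/ℚ), γ' ^ ℓ ∈ K → γ' ∈ (B ℓ j).fixingSubgroup →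
        γ' ∉ (B ℓ (j + 1)).fixingSubgroup → ∀ E,
        RankLe p inertia ((K ⊔ zpowers γ') ⊓ (R m).fixingSubgroup) E →
        RankLe p inertia (K ⊓ (R m).fixingSubgroup) (C₂ * E) := by
      rcases Nat.eq_zero_or_pos k with h0 | h0
      · exact ⟨0, fun j hj => by omega⟩
      · obtain ⟨j, rfl⟩ : ∃ j, k = j + 1 := ⟨k - 1, by omega⟩
        obtain ⟨C, hC⟩ := key K hKn hKo hKf hKL j hk1
        refine ⟨C, fun j' hj' => ?_⟩
        have h1 : j' = j := by omega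
        rw [h1]
        exact hC
    refine ⟨(K ⊓ (B ℓ (k + 1)).fixingSubgroup).index + C₁ + (K.index + C₂),
      fun m γ hγD hγK hγℓ => ?_⟩
    have hγD' : γ ∈ (R m).fixingSubgroup := hγD
    by_cases hγk : γ ∈ (B ℓ k).fixingSubgroup
    · obtain ⟨γ', hγ'D, hγγ', hγ'K, hγ'1, hγ'2⟩ : ∃ γ' ∈ (R m).fixingSubgroup, γ⁻¹ * γ' ∈ K ∧
          γ' ^ ℓ ∈ K ∧ γ' ∈ (B ℓ k).fixingSubgroup ∧ γ' ∉ (B ℓ (k + 1)).fixingSubgroup := by
        by_cases hγk1 : γ ∈ (B ℓ (k + 1)).fixingSubgroup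
        · obtain ⟨κ, hκ, hκ1⟩ := SetLike.not_le_iff_exists.1 hk2
          have hκp : κ ^ p ^ m ∈ K := K.pow_mem hκ _
          refine ⟨γ * κ ^ p ^ m, mul_mem hγD' ?_, ?_, ?_, mul_mem hγk (pow_mem (hk1 hκ) _), ?_⟩
          · rw [← hDi m]
            have := hDn m
            exact pow_index_mem _ κ
          · rw [inv_mul_cancel_left]
            exact hκp
          · rw [← QuotientGroup.eq_one_iff, QuotientGroup.mk_pow, QuotientGroup.mk_mul,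
              (QuotientGroup.eq_one_iff (κ ^ p ^ m)).2 hκp, mul_one, ← QuotientGroup.mk_pow,
              QuotientGroup.eq_one_iff]
            exact hγℓ
          · intro h1
            have h2 : κ ^ p ^ m ∈ (B ℓ (k + 1)).fixingSubgroup := by
              have h3 := Subgroup.mul_mem _ (Subgroup.inv_mem _ hγk1) h1
              rwa [inv_mul_cancel_left] at h3
            have h3 := dvd_of_zpow_mem hn1 hℓ hκ1 (hBℓ.up hℓ k (hk1 hκ)) (j := ((p ^ m : ℕ) : ℤ))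
              (by rw [zpow_natCast]; exact h2)
            exact hℓp ((Nat.prime_dvd_prime_iff_eq hℓ hp.1).1
              (hℓ.dvd_of_dvd_pow (Int.natCast_dvd_natCast.1 h3)))
        · exact ⟨γ, hγD', by rw [inv_mul_cancel]; exact K.one_mem, hγℓ, hγk, hγk1⟩
      have hγ'X : γ' ^ ℓ ∈ K ⊓ (B ℓ (k + 1)).fixingSubgroup := ⟨hγ'K, hBℓ.up hℓ k hγ'1⟩
      exact relBound_of hFIN hp.1 (hDn m) (hDi m) (hDo m) hXn hXo hXf inf_le_left hℓ hℓp hγD' hγ'D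
        hγγ' hγ'X (C := C₁) (by omega) (by omega) (hC₁ m γ' hγ'X hγ'1 hγ'2)
    · obtain ⟨j, hj⟩ : ∃ j, k = j + 1 := by
        rcases Nat.eq_zero_or_pos k with h0 | h0
        · exfalso
          apply hγk
          have h1 := hBℓ.index 0
          rw [pow_zero, index_eq_one] at h1
          rw [h0, h1]
          trivial
        · exact ⟨k - 1, by omega⟩
      have h1 : γ ∈ (B ℓ j).fixingSubgroup := hBℓ.down hℓ j (by
        rw [← hj]
        exact hk1 hγℓ)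
      have h2 : γ ∉ (B ℓ (j + 1)).fixingSubgroup := by
        rw [← hj]
        exact hγk
      exact relBound_of hFIN hp.1 (hDn m) (hDi m) (hDo m) hKn hKo hKf le_rfl hℓ hℓp hγD' hγD'
        (by rw [inv_mul_cancel]; exact K.one_mem) hγℓ (C := C₂) (by omega) (by omega)
        (hC₂ j hj m γ hγℓ h1 h2))
  -- the given number field
  obtain ⟨N, hFN, hNf, hNg, hNL⟩ := hF
  have hNn := normal_of_gal hNg
  have hFf : FiniteDimensional ℚ F :=
    Submodule.finiteDimensional_of_le (S₁ := Subalgebra.toSubmodule F.toSubalgebra)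
      (S₂ := Subalgebra.toSubmodule N.toSubalgebra) hFN
  rw [← mu_iff hRf]
  refine Mu0.of_le hDo hNn (fixingSubgroup_le hFN) N.fixingSubgroup_isOpen (index_ne_zero' N)
    (hmain _ _ hNn N.fixingSubgroup_isOpen (index_ne_zero' N) ?_ rfl)
  show PrimesIn 𝓛 N.fixingSubgroup.index
  rw [← finrank_eq_fixingSubgroup_index]
  exact hNL

/-- `N` is the first layer of the `ℤ_ℓ`-extension `M B_∞ / M`, where `B_∞` is the union of the fields
`B 0, B 1, …`, and `N` is Galois over `ℚ`, of a degree with all prime factors in `𝓛`. -/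
def FirstLayer (𝓛 : Set ℕ) (B : ℕ → IntermediateField ℚ Qb) (M N : IntermediateField ℚ Qb) : Prop :=
  FiniteDimensional ℚ M ∧ (∃ k, B k ≤ M ∧ ¬ B (k + 1) ≤ M ∧ N = M ⊔ B (k + 1)) ∧
    (∀ σ : Gal(Qb/ℚ), ∀ x ∈ N, σ x ∈ N) ∧ PrimesIn 𝓛 (finrank ℚ N)

/-- **The equivalences.** -/
theorem muZero_iff_cyc (hFIN : S_FIN) (hQQ : S_QQ) (p : ℕ) [hp : Fact p.Prime]
    (hp2 : p ≠ 2) (R : ℕ → IntermediateField ℚ Qb) (hR : IsCycTower p R) (hd : FinDec R)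
    (B : ℕ → ℕ → IntermediateField ℚ Qb) (hB : ∀ ℓ : ℕ, ℓ.Prime → ℓ ≠ p → IsZExt ℓ (B ℓ))
    (𝓛 : Set ℕ) :
    ((∀ F : IntermediateField ℚ Qb, IsLField 𝓛 F → MuZero p R F) ↔
      ∀ ℓ ∈ 𝓛, ℓ.Prime → ℓ ≠ p → ∀ M : IntermediateField ℚ Qb, IsLField 𝓛 M → ∀ k : ℕ,
        SameGrowth p R M (M ⊔ B ℓ k)) ∧
    ((∀ F : IntermediateField ℚ Qb, IsLField 𝓛 F → MuZero p R F) ↔
      ∀ ℓ ∈ 𝓛, ℓ.Prime → ℓ ≠ p → ∀ M N : IntermediateField ℚ Qb, FirstLayer 𝓛 (B ℓ) M N →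
        SameGrowth p R M N) := by
  have h1 : (∀ F : IntermediateField ℚ Qb, IsLField 𝓛 F → MuZero p R F) →
      ∀ ℓ ∈ 𝓛, ℓ.Prime → ℓ ≠ p → ∀ M : IntermediateField ℚ Qb, IsLField 𝓛 M → ∀ k : ℕ,
        SameGrowth p R M (M ⊔ B ℓ k) := by
    rintro h ℓ hℓL hℓ hℓp M ⟨N, hMN, hNf, hNg, hNL⟩ k
    have hBℓ := hB ℓ hℓ hℓp
    have hBf := hBℓ.fin hℓ k
    have hMf : FiniteDimensional ℚ M :=
      Submodule.finiteDimensional_of_le (S₁ := Subalgebra.toSubmodule M.toSubalgebra)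
        (S₂ := Subalgebra.toSubmodule N.toSubalgebra) hMN
    have hNn := normal_of_gal hNg
    have hBn := hBℓ.normal k
    have hn : (N.fixingSubgroup ⊓ (B ℓ k).fixingSubgroup).Normal := inferInstance
    have hfix : (N ⊔ B ℓ k).fixingSubgroup = N.fixingSubgroup ⊓ (B ℓ k).fixingSubgroup :=
      fixingSubgroup_sup
    obtain ⟨C, hC⟩ := h (M ⊔ B ℓ k) ⟨N ⊔ B ℓ k, sup_le_sup_right hMN _, inferInstance, by
      intro σ x hx
      rw [← InfiniteGalois.fixedField_fixingSubgroup (N ⊔ B ℓ k), hfix] at hx ⊢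
      exact gal_of_normal hn σ x hx, by
      rw [finrank_eq_fixingSubgroup_index, hfix]
      refine primesIn_inf hBn ?_ ?_
      · rw [← finrank_eq_fixingSubgroup_index]
        exact hNL
      · intro q hq hqd
        rw [hBℓ.index] at hqd
        rw [(Nat.prime_dvd_prime_iff_eq hq hℓ).1 (hq.dvd_of_dvd_pow hqd)]
        exact hℓL⟩
    refine ⟨C, fun m D hD => ?_⟩
    have hRm := (cyc_facts hp2 hR m).1
    have h1 : 1 ≤ D := degLe_pos hD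
    have h2 := hC m
    rw [← rankLe_iff] at h2 ⊢
    exact h2.mono (Nat.le_mul_of_pos_right _ h1)
  have h2 : (∀ ℓ ∈ 𝓛, ℓ.Prime → ℓ ≠ p → ∀ M : IntermediateField ℚ Qb, IsLField 𝓛 M → ∀ k : ℕ,
        SameGrowth p R M (M ⊔ B ℓ k)) →
      ∀ ℓ ∈ 𝓛, ℓ.Prime → ℓ ≠ p → ∀ M N : IntermediateField ℚ Qb, FirstLayer 𝓛 (B ℓ) M N →
        SameGrowth p R M N := by
    rintro h ℓ hℓL hℓ hℓp M N ⟨hMf, ⟨k, -, -, rfl⟩, hNg, hNL⟩
    have hBf := (hB ℓ hℓ hℓp).fin hℓ (k + 1)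
    exact h ℓ hℓL hℓ hℓp M ⟨M ⊔ B ℓ (k + 1), le_sup_left, inferInstance, hNg, hNL⟩ (k + 1)
  have h3 : (∀ ℓ ∈ 𝓛, ℓ.Prime → ℓ ≠ p → ∀ M N : IntermediateField ℚ Qb,
        FirstLayer 𝓛 (B ℓ) M N → SameGrowth p R M N) →
      ∀ F : IntermediateField ℚ Qb, IsLField 𝓛 F → MuZero p R F := by
    intro h F hF
    exact all_muZero_cyc hFIN hQQ p hp2 R hR hd B hB 𝓛 (fun ℓ hℓL hℓ hℓp k M hMf hk1 hk2 hg hL =>
      h ℓ hℓL hℓ hℓp M _ ⟨hMf, ⟨k, hk1, hk2, rfl⟩, hg, hL⟩) F hF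
  exact ⟨⟨h1, fun h => h3 (h2 h)⟩, ⟨fun h => h2 (h1 h), h3⟩⟩

end Pool.Agent.K4H43.IW
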