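import Pool.Agent.Q60.MU.Alg

/-!
# Simple quotients detected by subgroups and by elements
-/

set_option autoImplicit false

open Module

namespace Pool.Agent.K4H43.IW

open Pool.Agent.Q60.MU

universe u

variable {k : Type} [Field k] {G : Type} [Group G]

/-- Every simple finite-dimensional representation of `G` over `k` on which `K₀` acts trivially has
nonzero coinvariants for some subgroup `H i`, or one of the elements `γ j` acts nontrivially. -/
def Detects2 (k : Type) [Field k] {G : Type} [Group G] (K₀ : Subgroup G) {ι κ : Type}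
    (s : Finset ι) (H : ι → Subgroup G) (t : Finset κ) (γ : κ → G) : Prop :=
  ∀ (S : Type) [AddCommGroup S] [Module k S] [Module.Finite k S] (σ : Representation k G S),
    (∀ g ∈ K₀, ∀ x, σ g x = x) → IsSimple σ →
      (∃ i ∈ s, coinv σ (H i) ≠ ⊤) ∨ ∃ j ∈ t, ∃ x, σ (γ j) x ≠ x

variable {V : Type} [AddCommGroup V] [Module k V] (ρ : Representation k G V)

/-- the image of `ρ g - 1` -/
def mov (g : G) : Submodule k V := LinearMap.range (ρ g - LinearMap.id)

theorem mem_mov (g : G) (x : V) : ρ g x - x ∈ mov ρ g := ⟨x, rfl⟩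

/-- A maximal stable subspace. -/
theorem exists_max [Module.Finite k V] {W : Submodule k V} (hW : Stable ρ W) (hWt : W ≠ ⊤) :
    ∃ U : Submodule k V, W ≤ U ∧ ∃ hU : Stable ρ U, IsSimple (quo ρ hU) := by
  classical
  have hex : ∃ n, ∃ U : Submodule k V, Stable ρ U ∧ U ≠ ⊤ ∧ W ≤ U ∧
      finrank k V - finrank k U = n := ⟨_, W, hW, hWt, le_rfl, rfl⟩
  obtain ⟨U, hU, hUt, hWU, hn⟩ := Nat.find_spec hex
  have hmin := fun m hm => Nat.find_min hex (m := m) hm
  refine ⟨U, hWU, hU, ?_⟩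
  refine ⟨Submodule.Quotient.nontrivial_iff.2 hUt, fun Q hQ => ?_⟩
  by_cases hQt : Q = ⊤
  · exact Or.inr hQt
  left
  have h1 : Stable ρ (Q.comap U.mkQ) := by
    intro g x hx
    have h2 := hQ g (U.mkQ x) hx
    rw [quo_mk] at h2
    exact h2
  have h2 : Q.comap U.mkQ ≠ ⊤ := by
    intro h
    apply hQt
    rw [← Submodule.map_comap_eq_of_surjective (Submodule.mkQ_surjective U) Q, h,
      Submodule.map_top, Submodule.range_mkQ]
  have h3 : U ≤ Q.comap U.mkQ := by
    intro x hx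
    show U.mkQ x ∈ Q
    rw [Submodule.mkQ_apply, (Submodule.Quotient.mk_eq_zero U).2 hx]
    exact Q.zero_mem
  by_contra hQb
  have h4 : U < Q.comap U.mkQ := by
    refine lt_of_le_of_ne h3 fun h => hQb ?_
    rw [← Submodule.map_comap_eq_of_surjective (Submodule.mkQ_surjective U) Q, ← h,
      Submodule.mkQ_map_self]
  have h5 := Submodule.finrank_lt_finrank_of_lt h4
  have h6 : finrank k (Q.comap U.mkQ : Submodule k V) ≤ finrank k V := Submodule.finrank_le _
  refine hmin (finrank k V - finrank k (Q.comap U.mkQ : Submodule k V)) ?_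
    ⟨_, h1, h2, hWU.trans h3, rfl⟩
  rw [← hn]
  omega

variable {K₀ : Subgroup G} {ι κ : Type} {s : Finset ι} {H : ι → Subgroup G} {t : Finset κ}
  {γ : κ → G}

theorem exists_detect2 [Module.Finite k V] (h0 : ∀ g ∈ K₀, ∀ x, ρ g x = x)
    (hdet : Detects2 k K₀ s H t γ) {W : Submodule k V} (hW : Stable ρ W) (hWt : W ≠ ⊤) :
    ∃ U : Submodule k V, W ≤ U ∧ Stable ρ U ∧
      ((∃ i ∈ s, U ⊔ coinv ρ (H i) ≠ ⊤) ∨ ∃ j ∈ t, ¬ mov ρ (γ j) ≤ U) := by
  obtain ⟨U, hWU, hU, hsimple⟩ := exists_max ρ hW hWt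
  refine ⟨U, hWU, hU, ?_⟩
  rcases hdet (V ⧸ U) (quo ρ hU) (by
    intro g hg x
    obtain ⟨y, rfl⟩ := Submodule.mkQ_surjective U x
    rw [quo_mk, h0 g hg]) hsimple with ⟨i, hi, hc⟩ | ⟨j, hj, x, hx⟩
  · left
    refine ⟨i, hi, fun h => hc ?_⟩
    rw [eq_top_iff]
    have h1 : (⊤ : Submodule k (V ⧸ U)) = (U ⊔ coinv ρ (H i)).map U.mkQ := by
      rw [h, Submodule.map_top, Submodule.range_mkQ]
    rw [h1, Submodule.map_sup, Submodule.mkQ_map_self, bot_sup_eq, coinv, Submodule.map_span,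
      Submodule.span_le]
    rintro _ ⟨_, ⟨h, hh, v, rfl⟩, rfl⟩
    rw [map_sub, ← quo_mk ρ hU]
    exact Submodule.subset_span ⟨h, hh, U.mkQ v, rfl⟩
  · right
    refine ⟨j, hj, fun h => hx ?_⟩
    obtain ⟨y, rfl⟩ := Submodule.mkQ_surjective U x
    rw [quo_mk]
    have h1 : U.mkQ (ρ (γ j) y - y) = 0 := (Submodule.Quotient.mk_eq_zero U).2 (h (mem_mov ρ _ y))
    rw [map_sub, sub_eq_zero] at h1
    exact h1

/-- **The inequality for representations.** -/
theorem finrank_le2 [Module.Finite k V] (hidx : K₀.index ≠ 0) (h0 : ∀ g ∈ K₀, ∀ x, ρ g x = x)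
    (hdet : Detects2 k K₀ s H t γ) :
    finrank k V ≤ K₀.index * (∑ i ∈ s, finrank k (V ⧸ coinv ρ (H i)) +
      ∑ j ∈ t, finrank k (mov ρ (γ j))) := by
  classical
  have hq : ∀ X : Submodule k V, finrank k (V ⧸ X) = finrank k V - finrank k X := by
    intro X
    have := X.finrank_quotient_add_finrank
    omega
  have hfl : ∀ X : Submodule k V, finrank k X ≤ finrank k V := fun X => Submodule.finrank_le _
  have key : ∀ (n : ℕ) (W : Submodule k V), Stable ρ W →
      ∑ i ∈ s, finrank k (V ⧸ (W ⊔ coinv ρ (H i))) +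
        ∑ j ∈ t, (finrank k (mov ρ (γ j)) - finrank k (mov ρ (γ j) ⊓ W : Submodule k V)) = n →
      finrank k V ≤ finrank k W + K₀.index * n := by
    intro n
    induction n using Nat.strong_induction_on with
    | _ n ih =>
      intro W hW hn
      by_cases hWt : W = ⊤
      · rw [hWt, finrank_top]
        exact Nat.le_add_right _ _
      obtain ⟨U, hWU, hU, hne⟩ := exists_detect2 ρ h0 hdet hW hWt
      -- it is enough to find a vector
      suffices hv : ∃ v, ∑ i ∈ s, finrank k (V ⧸ ((W ⊔ gen ρ v) ⊔ coinv ρ (H i))) +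
          ∑ j ∈ t, (finrank k (mov ρ (γ j)) -
            finrank k (mov ρ (γ j) ⊓ (W ⊔ gen ρ v) : Submodule k V)) < n by
        obtain ⟨v, hv⟩ := hv
        have h4 := ih _ hv (W ⊔ gen ρ v) (hW.sup (gen_stable ρ v)) rfl
        have h5 : finrank k (W ⊔ gen ρ v : Submodule k V) ≤ finrank k W + K₀.index :=
          (Submodule.finrank_add_le_finrank_add_finrank _ _).trans
            (Nat.add_le_add_left (finrank_gen_le ρ hidx h0 v) _)
        set a := ∑ i ∈ s, finrank k (V ⧸ ((W ⊔ gen ρ v) ⊔ coinv ρ (H i))) +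
          ∑ j ∈ t, (finrank k (mov ρ (γ j)) -
            finrank k (mov ρ (γ j) ⊓ (W ⊔ gen ρ v) : Submodule k V)) with ha
        calc finrank k V ≤ finrank k (W ⊔ gen ρ v : Submodule k V) + K₀.index * a := h4
          _ ≤ (finrank k W + K₀.index) + K₀.index * a := Nat.add_le_add_right h5 _
          _ = finrank k W + K₀.index * (a + 1) := by ring
          _ ≤ finrank k W + K₀.index * n :=
            Nat.add_le_add_left (Nat.mul_le_mul_left _ hv) _
      have hle : ∀ (v : V) (H' : Subgroup G), W ⊔ coinv ρ H' ≤ (W ⊔ gen ρ v) ⊔ coinv ρ H' :=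
        fun v H' => sup_le_sup_right le_sup_left _
      have hle' : ∀ (v : V) (B : Submodule k V), B ⊓ W ≤ B ⊓ (W ⊔ gen ρ v) :=
        fun v B => inf_le_inf_left _ le_sup_left
      have h1 : ∀ v, ∀ j ∈ s, finrank k (V ⧸ ((W ⊔ gen ρ v) ⊔ coinv ρ (H j))) ≤
          finrank k (V ⧸ (W ⊔ coinv ρ (H j))) := by
        intro v j _
        rw [hq, hq]
        have := Submodule.finrank_mono (hle v (H j))
        omega
      have h1' : ∀ v, ∀ j ∈ t, finrank k (mov ρ (γ j)) -
            finrank k (mov ρ (γ j) ⊓ (W ⊔ gen ρ v) : Submodule k V) ≤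
          finrank k (mov ρ (γ j)) - finrank k (mov ρ (γ j) ⊓ W : Submodule k V) := by
        intro v j _
        have := Submodule.finrank_mono (hle' v (mov ρ (γ j)))
        omega
      rcases hne with ⟨i, hi, hne⟩ | ⟨j, hj, hne⟩
      · obtain ⟨v, hv⟩ : ∃ v, v ∉ U ⊔ coinv ρ (H i) := by
          by_contra hcon
          push Not at hcon
          exact hne (eq_top_iff.2 fun x _ => hcon x)
        refine ⟨v, ?_⟩
        have h2 : finrank k (V ⧸ ((W ⊔ gen ρ v) ⊔ coinv ρ (H i))) <
            finrank k (V ⧸ (W ⊔ coinv ρ (H i))) := by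
          have h3 : W ⊔ coinv ρ (H i) < (W ⊔ gen ρ v) ⊔ coinv ρ (H i) := by
            refine lt_of_le_of_ne (hle v (H i)) fun h => hv ?_
            have h4 : v ∈ (W ⊔ gen ρ v) ⊔ coinv ρ (H i) :=
              Submodule.mem_sup_left (Submodule.mem_sup_right (mem_gen ρ v))
            rw [← h] at h4
            exact (sup_le_sup_right hWU _) h4
          have h5 := Submodule.finrank_lt_finrank_of_lt h3
          have h6 := hfl ((W ⊔ gen ρ v) ⊔ coinv ρ (H i))
          rw [hq, hq]
          omega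
        rw [← hn]
        exact add_lt_add_of_lt_of_le (Finset.sum_lt_sum (h1 v) ⟨i, hi, h2⟩)
          (Finset.sum_le_sum (h1' v))
      · obtain ⟨v, hvB, hvU⟩ := SetLike.not_le_iff_exists.1 hne
        refine ⟨v, ?_⟩
        have h3 : mov ρ (γ j) ⊓ W < mov ρ (γ j) ⊓ (W ⊔ gen ρ v) := by
          refine lt_of_le_of_ne (hle' v _) fun h => hvU ?_
          have h4 : v ∈ mov ρ (γ j) ⊓ (W ⊔ gen ρ v) :=
            ⟨hvB, Submodule.mem_sup_right (mem_gen ρ v)⟩
          rw [← h] at h4
          exact hWU h4.2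
        have h5 := Submodule.finrank_lt_finrank_of_lt h3
        have h6 : finrank k (mov ρ (γ j) ⊓ (W ⊔ gen ρ v) : Submodule k V) ≤
            finrank k (mov ρ (γ j)) := Submodule.finrank_mono inf_le_left
        rw [← hn]
        refine add_lt_add_of_le_of_lt (Finset.sum_le_sum (h1 v))
          (Finset.sum_lt_sum (h1' v) ⟨j, hj, ?_⟩)
        omega
  have h := key _ ⊥ (fun g x hx => by
    rw [Submodule.mem_bot] at hx ⊢
    rw [hx, map_zero]) rfl
  rw [finrank_bot, zero_add] at h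
  refine h.trans (le_of_eq ?_)
  congr 1
  congr 1
  · refine Finset.sum_congr rfl fun j _ => ?_
    rw [hq, hq, bot_sup_eq]
  · refine Finset.sum_congr rfl fun j _ => ?_
    rw [inf_bot_eq, finrank_bot, Nat.sub_zero]

end Pool.Agent.K4H43.IW
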