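import Pool.Agent.K4H43.IW.Main2
import Pool.Agent.Q60.MU.Reduction

/-!
# Bounded ranks from steps of prime degree
-/

set_option autoImplicit false

namespace Pool.Agent.K4H43.IW

open Subgroup Module Pool.Agent.Q60.MU

variable {𝔾 : Type} [Group 𝔾]

/-- `γ` has prime order `ℓ ≠ p` modulo `K` -/
def Good (p : ℕ) (K : Subgroup 𝔾) (γ : 𝔾) : Prop :=
  ∃ ℓ : ℕ, ℓ.Prime ∧ ℓ ≠ p ∧ γ ∉ K ∧ γ ^ ℓ ∈ K

theorem RelBound.mono [TopologicalSpace 𝔾] {p : ℕ} {Ω : Type} {I : Ω → Subgroup 𝔾}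
    {K D : Subgroup 𝔾} {γ : 𝔾} {C C' : ℕ} (h : RelBound p I K D γ C) (hC : C ≤ C') :
    RelBound p I K D γ C' := by
  obtain ⟨X, h1, h2, h3, h4, γ', h5, h6, h7, h8, h9, h10⟩ := h
  exact ⟨X, h1, h2, h3.trans hC, h4, γ', h5, h6, h7, h8, h9,
    fun E hE => (h10 E hE).mono (Nat.mul_le_mul_right _ hC)⟩

theorem Good.prime_dvd {K : Subgroup 𝔾} (hK : K.Normal) (hf : K.index ≠ 0) {γ : 𝔾} {ℓ : ℕ}
    (hℓ : ℓ.Prime) (h1 : γ ∉ K) (h2 : γ ^ ℓ ∈ K) : ℓ ∣ K.index := by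
  have hfi : K.FiniteIndex := ⟨hf⟩
  have hfin : Finite (𝔾 ⧸ K) := inferInstance
  have h3 : orderOf (γ : 𝔾 ⧸ K) = ℓ := by
    have : Fact ℓ.Prime := ⟨hℓ⟩
    refine orderOf_eq_prime ?_ ?_
    · rw [← QuotientGroup.mk_pow]
      exact (QuotientGroup.eq_one_iff _).2 h2
    · exact fun h => h1 ((QuotientGroup.eq_one_iff _).1 h)
  have h4 : orderOf (γ : 𝔾 ⧸ K) ∣ Nat.card (𝔾 ⧸ K) := orderOf_dvd_natCard _
  rw [h3] at h4
  exact h4

/-- An element whose order is not a power of `p` has a power of prime order. -/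
theorem exists_good {p : ℕ} (hp : p.Prime) {K : Subgroup 𝔾} (hK : K.Normal) (hf : K.index ≠ 0)
    {d : 𝔾} (h : ¬ ∃ j : ℕ, d ^ p ^ j ∈ K) : ∃ a : ℕ, Good p K (d ^ a) := by
  have hfi : K.FiniteIndex := ⟨hf⟩
  have hfin : Finite (𝔾 ⧸ K) := inferInstance
  set N := orderOf (d : 𝔾 ⧸ K) with hN
  have hN0 : N ≠ 0 := (orderOf_pos (d : 𝔾 ⧸ K)).ne'
  obtain ⟨ℓ, hℓ, hℓN, hℓp⟩ : ∃ ℓ : ℕ, ℓ.Prime ∧ ℓ ∣ N ∧ ℓ ≠ p := by
    by_contra hcon
    push Not at hcon
    have h1 : N = p ^ N.primeFactorsList.length :=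
      Nat.eq_prime_pow_of_unique_prime_dvd hN0 fun {d} hd hdN => hcon d hd hdN
    apply h
    refine ⟨N.primeFactorsList.length, ?_⟩
    rw [← h1, ← QuotientGroup.eq_one_iff, QuotientGroup.mk_pow, hN, pow_orderOf_eq_one]
  obtain ⟨a, ha⟩ := hℓN
  refine ⟨a, ℓ, hℓ, hℓp, ?_, ?_⟩
  · intro h1
    rw [← QuotientGroup.eq_one_iff, QuotientGroup.mk_pow] at h1
    have h2 : N ∣ a := orderOf_dvd_of_pow_eq_one h1
    have ha0 : 0 < a := by
      refine Nat.pos_of_ne_zero fun h => hN0 ?_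
      rw [ha, h, mul_zero]
    have h3 := Nat.le_of_dvd ha0 h2
    have h4 := hℓ.two_le
    nlinarith
  · rw [← pow_mul, mul_comm, ← ha, ← QuotientGroup.eq_one_iff, QuotientGroup.mk_pow, hN,
      pow_orderOf_eq_one]

/-- Simple modules on which all elements have `p`-power order are trivial. -/
theorem trivial_of_pgroup {p : ℕ} [Fact p.Prime] {D : Type} [Group D] {K₀ : Subgroup D}
    (hK : K₀.Normal) (hpow : ∀ d : D, ∃ j : ℕ, d ^ p ^ j ∈ K₀)
    {S : Type} [AddCommGroup S] [Module (ZMod p) S] [Module.Finite (ZMod p) S]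
    (σ : Representation (ZMod p) D S) (htriv : ∀ g ∈ K₀, ∀ x, σ g x = x) (hs : IsSimple σ) :
    ∀ (d : D) (x : S), σ d x = x := by
  have hnt : Nontrivial S := hs.1
  have hpg : IsPGroup p (D ⧸ K₀) := by
    intro x
    obtain ⟨y, rfl⟩ := QuotientGroup.mk_surjective x
    obtain ⟨j, hj⟩ := hpow y
    refine ⟨j, ?_⟩
    rw [← QuotientGroup.mk_pow]
    exact (QuotientGroup.eq_one_iff _).2 hj
  let τ' : (D ⧸ K₀) →* Module.End (ZMod p) S := QuotientGroup.lift K₀ σ (fun g hg => by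
    apply LinearMap.ext
    intro x
    exact htriv g hg x)
  obtain ⟨v, hv, hfix⟩ := exists_fixed hpg (V := S) τ'
  let U : Submodule (ZMod p) S :=
    { carrier := {x | ∀ d : D, σ d x = x}
      add_mem' := fun {a b} ha hb d => by rw [map_add, ha d, hb d]
      zero_mem' := fun d => map_zero _
      smul_mem' := fun c x hx d => by rw [map_smul, hx d] }
  have hU : Stable σ U := by
    intro g x hx d
    rw [hx g]
    exact hx d
  rcases hs.2 U hU with h | h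
  · exfalso
    apply hv
    have h1 : v ∈ U := fun d => hfix (d : D ⧸ K₀)
    rw [h] at h1
    exact (Submodule.mem_bot _).1 h1
  · intro d x
    have h1 : x ∈ U := by
      rw [h]
      trivial
    exact h1 d

theorem coinv_eq_bot {k : Type} [Field k] {D : Type} [Group D] {S : Type} [AddCommGroup S]
    [Module k S] (σ : Representation k D S) (H : Subgroup D) (h : ∀ g ∈ H, ∀ x, σ g x = x) :
    coinv σ H = ⊥ := by
  rw [coinv, Submodule.span_eq_bot]
  rintro _ ⟨g, hg, v, rfl⟩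
  rw [h g hg, sub_self]

/-- **Bounded ranks from steps of prime degree.** -/
theorem mu0_of_steps [TopologicalSpace 𝔾] [ContinuousMul 𝔾] {p : ℕ} [Fact p.Prime] {Ω : Type}
    [MulAction 𝔾 Ω] {I : Ω → Subgroup 𝔾}
    (hI : ∀ (g : 𝔾) (w : Ω), ∀ x ∈ I w, g * x * g⁻¹ ∈ I (g • w))
    {Dm : ℕ → Subgroup 𝔾} (hDn : ∀ m, (Dm m).Normal)
    (hram : ∀ K : Subgroup 𝔾, IsOpen (K : Set 𝔾) → K.index ≠ 0 →
      ∃ t, ∀ m, ∃ T : Finset Ω, T.card ≤ t ∧
        ∀ w, I w ⊓ Dm m ≤ K ∨ ∃ u ∈ T, ∃ d ∈ Dm m, w = d • u)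
    (htop : Mu0 p I Dm ⊤) {Pr : Subgroup 𝔾 → Prop} (hPr : ∀ K L, K ≤ L → Pr K → Pr L)
    (hrel : ∀ K : Subgroup 𝔾, K.Normal → IsOpen (K : Set 𝔾) → K.index ≠ 0 → Pr K →
      ∀ ℓ : ℕ, ℓ.Prime → ℓ ≠ p → ℓ ∣ K.index → ∃ C, ∀ m, ∀ γ ∈ Dm m, γ ∉ K → γ ^ ℓ ∈ K →
        RelBound p I (K ⊓ Dm m) (Dm m) γ C) :
    ∀ (n : ℕ) (K : Subgroup 𝔾), K.Normal → IsOpen (K : Set 𝔾) → K.index ≠ 0 → Pr K →
      K.index = n → Mu0 p I Dm K := by
  classical
  intro n
  induction n using Nat.strong_induction_on with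
  | _ n ih =>
  intro K hKn hKo hKf hKP hKi
  obtain ⟨t, ht⟩ := hram K hKo hKf
  -- the finite set of subgroups with bounded ranks
  have hfin : {L : Subgroup 𝔾 | K ≤ L ∧ Mu0 p I Dm L}.Finite :=
    (finite_ge hKn hKf).subset fun L hL => hL.1
  set 𝓛 := hfin.toFinset with h𝓛
  have hmem : ∀ L, L ∈ 𝓛 ↔ K ≤ L ∧ Mu0 p I Dm L := fun L => by
    rw [h𝓛, Set.Finite.mem_toFinset]
    rfl
  have hC : ∃ C, ∀ L ∈ 𝓛, ∀ m, RankLe p I (L ⊓ Dm m) C := by
    choose! c hc using fun L (hL : L ∈ 𝓛) => ((hmem L).1 hL).2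
    exact ⟨𝓛.sup c, fun L hL m => (hc L hL m).mono (Finset.le_sup hL)⟩
  obtain ⟨C, hC⟩ := hC
  -- the relative bounds
  have hC' : ∃ C', 1 ≤ C' ∧ ∀ m, ∀ γ ∈ Dm m, Good p K γ →
      RelBound p I (K ⊓ Dm m) (Dm m) γ C' := by
    choose! c hc using hrel K hKn hKo hKf hKP
    refine ⟨(Finset.range (K.index + 1)).sup c + 1, Nat.le_add_left _ _, ?_⟩
    rintro m γ hγ ⟨ℓ, hℓ, hℓp, h1, h2⟩
    have h4 : ℓ ∣ K.index := Good.prime_dvd hKn hKf hℓ h1 h2
    refine (hc ℓ hℓ hℓp h4 m γ hγ h1 h2).mono ?_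
    have h3 : ℓ ≤ K.index := Nat.le_of_dvd (Nat.pos_of_ne_zero hKf) h4
    exact (Finset.le_sup (f := c) (Finset.mem_range.2 (Nat.lt_succ_of_le h3))).trans
      (Nat.le_succ _)
  obtain ⟨C', hC'1, hC'⟩ := hC'
  refine ⟨(cst K.index (K.index * t) * C + 1) ^ (K.index * 𝓛.card) *
    (C' * C') ^ (K.index * K.index), fun m => ?_⟩
  obtain ⟨T, hTt, hT⟩ := ht m
  have h1 : (K ⊓ Dm m).relIndex (Dm m) = K.relIndex (Dm m) := inf_relIndex_right K _
  have h2 : K.relIndex (Dm m) ∣ K.index := relIndex_dvd_index_of_normal K _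
  have h3 : (K ⊓ Dm m).relIndex (Dm m) ≠ 0 := by
    rw [h1]
    intro h
    rw [h] at h2
    exact hKf (Nat.eq_zero_of_zero_dvd h2)
  have h4 : (K ⊓ Dm m).relIndex (Dm m) ≤ K.index := by
    rw [h1]
    exact Nat.le_of_dvd (Nat.pos_of_ne_zero hKf) h2
  have h5 := main_ineq2 (p := p) hI (K := K ⊓ Dm m) (D := Dm m) inf_le_right
    (fun d hd x hx => ⟨hKn.conj_mem x hx.1 d, (Dm m).mul_mem ((Dm m).mul_mem hd hx.2)
      ((Dm m).inv_mem hd)⟩) h3 h4 (𝓛.image fun L => L ⊓ Dm m) (by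
      intro L hL
      obtain ⟨M, hM, rfl⟩ := Finset.mem_image.1 hL
      exact ⟨inf_le_inf_right _ ((hmem M).1 hM).1, inf_le_right⟩) hC'1 (Good p K)
    (fun g hg hgg => hC' m g hg hgg) (by
      intro S _ _ _ σ htriv hsim
      have hnt : Nontrivial S := hsim.1
      by_cases hgt : ∃ g : Dm m, Good p K (g : 𝔾) ∧ ∃ x, σ g x ≠ x
      · exact Or.inr hgt
      left
      push Not at hgt
      -- the kernel of all conjugates
      set Z : Subgroup 𝔾 := ((σ.ker).map (Dm m).subtype).normalCore with hZ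
      have hZn : Z.Normal := normalCore_normal _
      have hZmem : ∀ z ∈ Z, ∃ hz : z ∈ Dm m, ∀ x, σ ⟨z, hz⟩ x = x := by
        intro z hz
        obtain ⟨y, hy, rfl⟩ := normalCore_le _ hz
        refine ⟨y.2, fun x => ?_⟩
        have h6 : σ y = 1 := hy
        have h7 : (⟨(Dm m).subtype y, y.2⟩ : Dm m) = y := rfl
        rw [h7, h6]
        rfl
      have hsupn : (K ⊔ Z).Normal := inferInstance
      have hact : ∀ g ∈ ((K ⊔ Z) ⊓ Dm m).subgroupOf (Dm m), ∀ x, σ g x = x := by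
        rintro g ⟨hg, -⟩ x
        obtain ⟨k, hk, z, hz, hkz⟩ := mem_sup_of_normal_right.1 hg
        obtain ⟨hzD, hzt⟩ := hZmem z hz
        have hkz' : k * z = (g : 𝔾) := hkz
        have hkD : k ∈ Dm m := by
          have h6 : k = (g : 𝔾) * z⁻¹ := by rw [← hkz', mul_inv_cancel_right]
          rw [h6]
          exact (Dm m).mul_mem g.2 ((Dm m).inv_mem hzD)
        have h6 : g = (⟨k, hkD⟩ : Dm m) * ⟨z, hzD⟩ := Subtype.ext hkz'.symm
        rw [h6, map_mul, Module.End.mul_apply, hzt]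
        exact htriv _ ⟨hk, hkD⟩ x
      by_cases hKZ : K = K ⊔ Z
      · -- a `p`-group
        have hZK : Z ≤ K := by
          rw [hKZ]
          exact le_sup_right
        have hpw : ∀ d : Dm m, ∃ j : ℕ, d ^ p ^ j ∈ (K ⊓ Dm m).subgroupOf (Dm m) := by
          intro d
          by_contra hcon
          have hcon' : ¬ ∃ j : ℕ, (d : 𝔾) ^ p ^ j ∈ K := by
            rintro ⟨j, hj⟩
            refine hcon ⟨j, ?_⟩
            rw [mem_subgroupOf]
            push_cast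
            exact ⟨hj, (Dm m).pow_mem d.2 _⟩
          obtain ⟨a, ℓ, hℓ, hℓp, h6, h7⟩ := exists_good (Fact.out : p.Prime) hKn hKf hcon'
          apply h6
          apply hZK
          intro b
          have hbD : b * (d : 𝔾) ^ a * b⁻¹ ∈ Dm m := (hDn m).conj_mem _ ((Dm m).pow_mem d.2 _) b
          refine ⟨⟨b * (d : 𝔾) ^ a * b⁻¹, hbD⟩, ?_, rfl⟩
          show σ _ = 1
          apply LinearMap.ext
          intro x
          refine hgt ⟨b * (d : 𝔾) ^ a * b⁻¹, hbD⟩ ⟨ℓ, hℓ, hℓp, ?_, ?_⟩ x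
          · intro h8
            apply h6
            have h9 := hKn.conj_mem _ h8 b⁻¹
            have h10 : b⁻¹ * (b * (d : 𝔾) ^ a * b⁻¹) * b⁻¹⁻¹ = (d : 𝔾) ^ a := by group
            rwa [h10] at h9
          · show (b * (d : 𝔾) ^ a * b⁻¹) ^ ℓ ∈ K
            rw [conj_pow]
            exact hKn.conj_mem _ h7 b
        have hN0 : ((K ⊓ Dm m).subgroupOf (Dm m)).Normal := by
          refine ⟨fun x hx g => ?_⟩
          rw [mem_subgroupOf] at hx ⊢
          exact ⟨hKn.conj_mem _ hx.1 g, (Dm m).mul_mem ((Dm m).mul_mem g.2 hx.2)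
            ((Dm m).inv_mem g.2)⟩
        have htr := trivial_of_pgroup hN0 hpw σ htriv hsim
        refine ⟨⊤ ⊓ Dm m, Finset.mem_image.2 ⟨⊤, (hmem ⊤).2 ⟨le_top, htop⟩, rfl⟩, ?_⟩
        rw [coinv_eq_bot σ _ fun g _ x => htr g x]
        exact bot_ne_top
      · -- a smaller index
        have hlt : K < K ⊔ Z := lt_of_le_of_ne le_sup_left hKZ
        have hi : (K ⊔ Z).index < n := by
          have h6 := relIndex_mul_index (H := K) (K := K ⊔ Z) le_sup_left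
          rw [hKi] at h6
          have h7 : (K ⊔ Z).index ≠ 0 := fun h => hKf (by rw [hKi, ← h6, h, mul_zero])
          have h8 : K.relIndex (K ⊔ Z) ≠ 0 := fun h => hKf (by rw [hKi, ← h6, h, zero_mul])
          have h9 : K.relIndex (K ⊔ Z) ≠ 1 := fun h =>
            hlt.not_ge (relIndex_eq_one.1 h)
          have h10 : 2 ≤ K.relIndex (K ⊔ Z) := by omega
          rw [← h6]
          have h11 := Nat.pos_of_ne_zero h7
          nlinarith
        have hmu := ih _ hi (K ⊔ Z) hsupn (isOpen_mono le_sup_left hKo)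
          (fun h => by
            have h6 := relIndex_mul_index (H := K) (K := K ⊔ Z) le_sup_left
            rw [h, mul_zero] at h6
            exact hKf h6.symm) (hPr _ _ le_sup_left hKP) rfl
        refine ⟨(K ⊔ Z) ⊓ Dm m, Finset.mem_image.2 ⟨K ⊔ Z, (hmem _).2 ⟨le_sup_left, hmu⟩, rfl⟩, ?_⟩
        rw [coinv_eq_bot σ _ hact]
        exact bot_ne_top) T hTt
    (fun w => (hT w).imp (fun h => le_inf h inf_le_right) id) (C := C) (by
      intro L hL
      obtain ⟨M, hM, rfl⟩ := Finset.mem_image.1 hL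
      exact hC M hM m)
  refine h5.mono (Nat.mul_le_mul_right _ ?_)
  refine (Nat.pow_le_pow_left (Nat.le_succ _) _).trans (Nat.pow_le_pow_right (Nat.succ_pos _) ?_)
  exact Nat.mul_le_mul_left _ Finset.card_image_le

end Pool.Agent.K4H43.IW
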