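import Pool.Agent.K4H43.IW.Stm2
import Pool.Agent.K4H43.IW.Steps

/-!
# Unramified steps in which given primes split
-/

set_option autoImplicit false

namespace Pool.Agent.K4H43.IW

open Subgroup Module IntermediateField Pool.Agent.Q60.MU Pool.Agent.K4H24.IW
open scoped Pointwise

/-- `M` has no real embedding. -/
def TotallyComplex (M : IntermediateField ℚ Qb) : Prop :=
  ∀ e : Qb →+* ℂ, ∃ x ∈ M, (starRingEnd ℂ) (e x) ≠ e x

/-- All prime factors of `n` are in `𝓛`. -/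
def PrimesIn (𝓛 : Set ℕ) (n : ℕ) : Prop := ∀ q : ℕ, q.Prime → q ∣ n → q ∈ 𝓛

/-- `F` is contained in a number field which is Galois over `ℚ`, of a degree all of whose prime
factors are in `𝓛`. -/
def IsLField (𝓛 : Set ℕ) (F : IntermediateField ℚ Qb) : Prop :=
  ∃ N : IntermediateField ℚ Qb, F ≤ N ∧ FiniteDimensional ℚ N ∧
    (∀ σ : Gal(Qb/ℚ), ∀ x ∈ N, σ x ∈ N) ∧ PrimesIn 𝓛 (finrank ℚ N)

/-- `M` is a number field, `T` is a totally real cyclic number field of degree `ℓ` in which the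
primes in `S` split completely, `M T` is Galois over `ℚ` and has degree `ℓ` over `M`, and the
primes of `M` over which `M T` has a prime which is ramified over `ℚ` split completely in `M T`
(in particular `M T` is unramified over `M`). -/
structure SplitStep (S : Finset ℕ) (ℓ : ℕ) (M T : IntermediateField ℚ Qb) : Prop where
  finM : FiniteDimensional ℚ M
  degT : finrank ℚ T = ℓ
  galT : ∀ σ : Gal(Qb/ℚ), ∀ x ∈ T, σ x ∈ T
  realT : ∀ e : Qb →+* ℂ, ∀ x ∈ T, (starRingEnd ℂ) (e x) = e x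
  splitT : ∀ A : ValuationSubring Qb, (∃ s ∈ S, (s : Qb) ∈ A.nonunits) →
    ∀ σ : Gal(Qb/ℚ), σ • A = A → σ ∈ T.fixingSubgroup
  degree : finrank ℚ (M ⊔ T : IntermediateField ℚ Qb) = ℓ * finrank ℚ M
  gal : ∀ σ : Gal(Qb/ℚ), ∀ x ∈ M ⊔ T, σ x ∈ M ⊔ T
  split : ∀ A : ValuationSubring Qb, ¬ inertia A ≤ (M ⊔ T).fixingSubgroup →
    ∀ σ ∈ M.fixingSubgroup, σ • A = A → σ ∈ T.fixingSubgroup

/-- The degrees of the maximal unramified elementary abelian `p`-extensions of `N R₀, N R₁, …` are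
at most `C` times those of `M R₀, M R₁, …`, for some `C`. -/
def SameGrowth (p : ℕ) (R : ℕ → IntermediateField ℚ Qb) (M N : IntermediateField ℚ Qb) : Prop :=
  ∃ C, ∀ m D, DegLe p (M ⊔ R m) D → DegLe p (N ⊔ R m) (C * D)

theorem conj_exists (e : Qb →+* ℂ) :
    ∃ c : Gal(Qb/ℚ), ∀ x, e (c x) = (starRingEnd ℂ) (e x) := by
  let _ : Algebra Qb ℂ := e.toAlgebra
  have : IsScalarTower ℚ Qb ℂ := IsScalarTower.of_algebraMap_eq' (Subsingleton.elim _ _)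
  exact ⟨(Complex.conjAe.restrictScalars ℚ).restrictNormal Qb, fun x =>
    AlgEquiv.restrictNormal_commutes (Complex.conjAe.restrictScalars ℚ) Qb x⟩

/-! ## Groups -/

section groups

variable {𝔾 : Type} [Group 𝔾]

theorem relIndex_cyclic {X : Subgroup 𝔾} (hX : X.Normal) (γ : 𝔾) :
    X.relIndex (X ⊔ zpowers γ) = orderOf (γ : 𝔾 ⧸ X) := by
  rw [relIndex_sup_left]
  have h1 := relIndex_ker (zpowers γ) (QuotientGroup.mk' X)
  rw [QuotientGroup.ker_mk', MonoidHom.map_zpowers, Nat.card_zpowers] at h1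
  exact h1

theorem zpow_mem_of_dvd {X : Subgroup 𝔾} {γ : 𝔾} {ℓ : ℕ} (h : γ ^ ℓ ∈ X) {j : ℤ}
    (hj : (ℓ : ℤ) ∣ j) : γ ^ j ∈ X := by
  obtain ⟨i, rfl⟩ := hj
  rw [zpow_mul, zpow_natCast]
  exact X.zpow_mem h i

theorem dvd_of_zpow_mem {X : Subgroup 𝔾} (hX : X.Normal) {γ : 𝔾} {ℓ : ℕ} (hℓ : ℓ.Prime)
    (h0 : γ ∉ X) (h : γ ^ ℓ ∈ X) {j : ℤ} (hj : γ ^ j ∈ X) : (ℓ : ℤ) ∣ j := by
  have : Fact ℓ.Prime := ⟨hℓ⟩
  have h3 : orderOf (γ : 𝔾 ⧸ X) = ℓ := by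
    refine orderOf_eq_prime ?_ ?_
    · rw [← QuotientGroup.mk_pow]
      exact (QuotientGroup.eq_one_iff _).2 h
    · exact fun h => h0 ((QuotientGroup.eq_one_iff _).1 h)
  rw [← h3]
  rw [orderOf_dvd_iff_zpow_eq_one, ← QuotientGroup.mk_zpow]
  exact (QuotientGroup.eq_one_iff _).2 hj

theorem sup_inf_of_normal {X D : Subgroup 𝔾} (hX : X.Normal) {γ : 𝔾} (hγ : γ ∈ D) :
    (X ⊔ zpowers γ) ⊓ D = X ⊓ D ⊔ zpowers γ := by
  apply le_antisymm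
  · rintro x ⟨hx, hxD⟩
    obtain ⟨a, ha, z, hz, rfl⟩ := mem_sup_of_normal_left.1 hx
    have hzD : z ∈ D := (zpowers_le.2 hγ) hz
    refine mul_mem (mem_sup_left ⟨ha, ?_⟩) (mem_sup_right hz)
    have h1 : a = a * z * z⁻¹ := by rw [mul_inv_cancel_right]
    rw [h1]
    exact D.mul_mem hxD (D.inv_mem hzD)
  · refine sup_le (inf_le_inf_right _ le_sup_left) (le_inf le_sup_right (zpowers_le.2 hγ))

/-- the element of order `ℓ` -/
theorem exists_elt {K K₁ Ki D : Subgroup 𝔾} (hK₁ : K₁ = K ⊓ Ki) (hKn : K₁.Normal) (hDn : D.Normal)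
    (hsq : ∀ x : 𝔾, x ^ 2 ∈ Ki) {ℓ n : ℕ} (hℓ : ℓ.Prime) (hcop : ¬ ℓ ∣ n) (hD : D.index = n)
    (χ : 𝔾 →* Multiplicative (ZMod ℓ)) (hχ : ∃ k ∈ K₁, χ k ≠ 1) {γ : 𝔾} (hγD : γ ∈ D)
    (hγ : γ ^ ℓ ∈ K) : ∃ γ' ∈ D, γ⁻¹ * γ' ∈ K ∧ γ' ^ ℓ ∈ K₁ ∧ χ γ' ≠ 1 := by
  have : Fact ℓ.Prime := ⟨hℓ⟩
  have h1 : γ ^ (ℓ + 1) ∈ D := D.pow_mem hγD _
  have h2 : γ⁻¹ * γ ^ (ℓ + 1) ∈ K := by
    rw [pow_succ', inv_mul_cancel_left]
    exact hγ
  have h3 : (γ ^ (ℓ + 1)) ^ ℓ ∈ K₁ := by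
    rw [hK₁]
    refine ⟨?_, ?_⟩
    · rw [← pow_mul, mul_comm, pow_mul]
      exact K.pow_mem hγ _
    · obtain ⟨r, hr⟩ := Nat.even_mul_succ_self ℓ
      rw [← pow_mul, mul_comm, hr, ← mul_two, pow_mul]
      exact hsq _
  by_cases h4 : χ (γ ^ (ℓ + 1)) = 1
  · obtain ⟨k, hk, hχk⟩ := hχ
    refine ⟨γ ^ (ℓ + 1) * k ^ n, D.mul_mem h1 ?_, ?_, ?_, ?_⟩
    · rw [← hD]
      exact D.pow_index_mem k
    · rw [← mul_assoc]
      refine K.mul_mem h2 (K.pow_mem ?_ _)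
      rw [hK₁] at hk
      exact hk.1
    · rw [← QuotientGroup.eq_one_iff, QuotientGroup.mk_pow, QuotientGroup.mk_mul,
        (QuotientGroup.eq_one_iff (k ^ n)).2 (K₁.pow_mem hk n), mul_one, ← QuotientGroup.mk_pow,
        QuotientGroup.eq_one_iff]
      exact h3
    · rw [map_mul, h4, one_mul, map_pow]
      intro h5
      have h6 : n • Multiplicative.toAdd (χ k) = 0 := by
        rw [← toAdd_pow, h5, toAdd_one]
      rw [nsmul_eq_mul, mul_eq_zero] at h6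
      rcases h6 with h6 | h6
      · exact hcop ((ZMod.natCast_eq_zero_iff _ _).1 h6)
      · exact hχk (toAdd_eq_zero.1 h6)
  · exact ⟨γ ^ (ℓ + 1), h1, h2, h3, h4⟩

theorem chi_pow {ℓ : ℕ} (χ : 𝔾 →* Multiplicative (ZMod ℓ)) (x : 𝔾) : χ (x ^ ℓ) = 1 := by
  have h6 : ℓ • Multiplicative.toAdd (χ x) = 0 := by
    rw [nsmul_eq_mul, ZMod.natCast_self, zero_mul]
  rw [map_pow]
  rw [← toAdd_pow] at h6
  exact toAdd_eq_zero.1 h6

theorem index_inf_dvd {A B : Subgroup 𝔾} (hB : B.Normal) : (A ⊓ B).index ∣ A.index * B.index := by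
  rw [← relIndex_mul_index (H := A ⊓ B) (K := A) inf_le_left, inf_relIndex_left, mul_comm]
  exact Nat.mul_dvd_mul_left _ (relIndex_dvd_index_of_normal B A)

theorem primesIn_inf {𝓛 : Set ℕ} {A B : Subgroup 𝔾} (hB : B.Normal) (h1 : PrimesIn 𝓛 A.index)
    (h2 : PrimesIn 𝓛 B.index) : PrimesIn 𝓛 (A ⊓ B).index := by
  intro q hq hd
  rcases (Nat.Prime.dvd_mul hq).1 (hd.trans (index_inf_dvd hB)) with h | h
  · exact h1 q hq h
  · exact h2 q hq h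

theorem primesIn_sq {𝓛 : Set ℕ} (h2 : 2 ∈ 𝓛) {A : Subgroup 𝔾} (hA : A.Normal) (hf : A.index ≠ 0)
    (hsq : ∀ x : 𝔾, x ^ 2 ∈ A) : PrimesIn 𝓛 A.index := by
  intro q hq hd
  have hfi : A.FiniteIndex := ⟨hf⟩
  have hfin : Finite (𝔾 ⧸ A) := inferInstance
  have : Fact q.Prime := ⟨hq⟩
  obtain ⟨x, hx⟩ := exists_prime_orderOf_dvd_card' (G := 𝔾 ⧸ A) q hd
  obtain ⟨y, rfl⟩ := QuotientGroup.mk_surjective x
  have h3 : orderOf ((y : 𝔾) : 𝔾 ⧸ A) ∣ 2 := by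
    refine orderOf_dvd_of_pow_eq_one ?_
    rw [← QuotientGroup.mk_pow]
    exact (QuotientGroup.eq_one_iff _).2 (hsq y)
  rw [hx] at h3
  rw [(Nat.prime_dvd_prime_iff_eq hq Nat.prime_two).1 h3]
  exact h2

theorem index_chi {ℓ : ℕ} (hℓ : ℓ.Prime) (χ : 𝔾 →* Multiplicative (ZMod ℓ))
    (h : ∃ k, χ k ≠ 1) : χ.ker.index = ℓ := by
  have : NeZero ℓ := ⟨hℓ.ne_zero⟩
  have : Finite (Multiplicative (ZMod ℓ)) := inferInstanceAs (Finite (ZMod ℓ))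
  have h1 : Nat.card χ.range ∣ Nat.card (Multiplicative (ZMod ℓ)) := card_subgroup_dvd_card _
  have h2 : Nat.card (Multiplicative (ZMod ℓ)) = ℓ := Nat.card_zmod ℓ
  rw [h2] at h1
  rw [index_ker]
  rcases (Nat.dvd_prime hℓ).1 h1 with h3 | h3
  · exfalso
    obtain ⟨k, hk⟩ := h
    have h4 := (card_eq_one (H := χ.range)).1 h3
    apply hk
    have h5 : χ k ∈ χ.range := ⟨k, rfl⟩
    rw [h4, Subgroup.mem_bot] at h5
    exact h5
  · exact h3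

end groups

/-- **The splitting step.** -/
theorem splitStep_of {S : Finset ℕ} {ℓ : ℕ} (hℓ : ℓ.Prime) {K K₁ Ki : Subgroup Gal(Qb/ℚ)}
    (hK₁ : K₁ = K ⊓ Ki) (hKn : K.Normal) (hK₁n : K₁.Normal)
    (hK₁o : IsOpen (K₁ : Set Gal(Qb/ℚ))) (hK₁f : K₁.index ≠ 0)
    (χ : Gal(Qb/ℚ) →* Multiplicative (ZMod ℓ)) (hχo : IsOpen (χ.ker : Set Gal(Qb/ℚ)))
    (hsp : ∀ A : ValuationSubring Qb, (∃ s ∈ S, (s : Qb) ∈ A.nonunits) →
      ∀ σ : Gal(Qb/ℚ), σ • A = A → χ σ = 1)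
    (hI : ∀ A : ValuationSubring Qb, inertia A ≤ K₁ ⊓ χ.ker ∨
      (∀ σ : Gal(Qb/ℚ), σ • A = A → χ σ = 1) ∨ ∀ σ : Gal(Qb/ℚ), σ • A = A → σ ∈ K₁)
    (hc : ∀ (e : Qb →+* ℂ) (c : Gal(Qb/ℚ)), (∀ x, e (c x) = (starRingEnd ℂ) (e x)) → χ c = 1)
    {γ : Gal(Qb/ℚ)} (hγK : γ ∉ K) (hγ : γ ^ ℓ ∈ K₁) (hχγ : χ γ ≠ 1) :
    fixedField (K₁ ⊓ χ.ker ⊔ zpowers γ) ⊔ fixedField χ.ker = fixedField (K₁ ⊓ χ.ker) ∧
    SplitStep S ℓ (fixedField (K₁ ⊓ χ.ker ⊔ zpowers γ)) (fixedField χ.ker) ∧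
    ((∃ ι : Qb, ι ^ 2 = -1 ∧ ∀ σ ∈ Ki, σ ι = ι) →
      TotallyComplex (fixedField (K₁ ⊓ χ.ker ⊔ zpowers γ))) := by
  have hX : (K₁ ⊓ χ.ker).Normal := inferInstance
  set X := K₁ ⊓ χ.ker with hXdef
  have hXo : IsOpen (X : Set Gal(Qb/ℚ)) := by
    rw [hXdef, Subgroup.coe_inf]
    exact hK₁o.inter hχo
  have hχi : χ.ker.index = ℓ := index_chi hℓ χ ⟨γ, hχγ⟩
  have hXf : X.index ≠ 0 := by
    refine index_inf_ne_zero hK₁f ?_
    rw [hχi]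
    exact hℓ.ne_zero
  have hYo : IsOpen ((X ⊔ zpowers γ : Subgroup _) : Set Gal(Qb/ℚ)) := isOpen_mono le_sup_left hXo
  have hYf : (X ⊔ zpowers γ).index ≠ 0 := fun h0 => hXf (by
    rw [← relIndex_mul_index (H := X) (K := X ⊔ zpowers γ) le_sup_left, h0, mul_zero])
  have hγX : γ ^ ℓ ∈ X := ⟨hγ, chi_pow χ γ⟩
  have hγX0 : γ ∉ X := fun h => hχγ h.2
  have hfX := fix_fixed hXo
  have hfY := fix_fixed hYo
  have hfT := fix_fixed hχo
  -- elements killed by `χ`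
  have key1 : ∀ σ ∈ X ⊔ zpowers γ, χ σ = 1 → σ ∈ X := by
    intro σ hσ hχσ
    obtain ⟨a, ha, z, hz, rfl⟩ := mem_sup_of_normal_left.1 hσ
    obtain ⟨j, rfl⟩ := mem_zpowers_iff.1 hz
    refine X.mul_mem ha (zpow_mem_of_dvd hγX ?_)
    refine dvd_of_zpow_mem (X := χ.ker) inferInstance hℓ hχγ (chi_pow χ γ) ?_
    have ha' : χ a = 1 := ha.2
    rw [map_mul, ha', one_mul] at hχσ
    exact hχσ
  have key2 : ∀ σ ∈ X ⊔ zpowers γ, σ ∈ K₁ → σ ∈ X := by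
    intro σ hσ hχσ
    obtain ⟨a, ha, z, hz, rfl⟩ := mem_sup_of_normal_left.1 hσ
    obtain ⟨j, rfl⟩ := mem_zpowers_iff.1 hz
    refine X.mul_mem ha (zpow_mem_of_dvd hγX ?_)
    have h1 : γ ^ j ∈ K₁ := by
      have h2 := K₁.mul_mem (K₁.inv_mem ha.1) hχσ
      rwa [inv_mul_cancel_left] at h2
    rw [hK₁] at h1 hγ
    exact dvd_of_zpow_mem (X := K) hKn hℓ hγK hγ.1 h1.1
  have hgal : ∀ {W : Subgroup Gal(Qb/ℚ)}, W.Normal → ∀ σ : Gal(Qb/ℚ), ∀ x ∈ fixedField W,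
      σ x ∈ fixedField W := by
    intro W hW σ x hx
    rw [mem_fixedField_iff] at hx ⊢
    intro w hw
    have h1 := hx _ (hW.conj_mem w hw σ⁻¹)
    have h2 : w (σ x) = σ ((σ⁻¹ * w * σ⁻¹⁻¹) x) := by
      rw [← AlgEquiv.mul_apply, ← AlgEquiv.mul_apply]
      congr 1
      group
    rw [h2, h1]
  have hMT : fixedField (X ⊔ zpowers γ) ⊔ fixedField χ.ker = fixedField X := by
    rw [← InfiniteGalois.fixedField_fixingSubgroup (fixedField (X ⊔ zpowers γ) ⊔ fixedField χ.ker),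
      fixingSubgroup_sup, hfY, hfT]
    congr 1
    apply le_antisymm
    · rintro σ ⟨h1, h2⟩
      exact key1 σ h1 h2
    · exact le_inf le_sup_left inf_le_right
  refine ⟨hMT, ⟨finite_fixed hYo hYf, ?_, hgal inferInstance, ?_, ?_, ?_, ?_, ?_⟩, ?_⟩
  · rw [finrank_eq_fixingSubgroup_index, hfT, hχi]
  · intro e x hx
    obtain ⟨c, hc'⟩ := conj_exists e
    rw [← hc', (mem_fixedField_iff _ _).1 hx c (hc e c hc')]
  · intro A hA σ hσ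
    rw [hfT]
    exact hsp A hA σ hσ
  · rw [hMT, finrank_eq_fixingSubgroup_index, finrank_eq_fixingSubgroup_index, hfX, hfY,
      ← relIndex_mul_index (H := X) (K := X ⊔ zpowers γ) le_sup_left, relIndex_cyclic hX]
    congr 1
    have : Fact ℓ.Prime := ⟨hℓ⟩
    refine orderOf_eq_prime ?_ ?_
    · rw [← QuotientGroup.mk_pow]
      exact (QuotientGroup.eq_one_iff _).2 hγX
    · exact fun h => hγX0 ((QuotientGroup.eq_one_iff _).1 h)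
  · rw [hMT]
    exact hgal hX
  · rw [hMT, hfX, hfY, hfT]
    intro A hA σ hσY hσA
    rcases hI A with h | h | h
    · exact absurd h hA
    · exact h σ hσA
    · exact (key2 σ hσY (h σ hσA)).2
  · rintro ⟨ι, hι, hKi⟩ e
    by_contra hcon
    push Not at hcon
    obtain ⟨c, hc'⟩ := conj_exists e
    have h1 : c ∈ X ⊔ zpowers γ := by
      rw [← hfY, IntermediateField.mem_fixingSubgroup_iff]
      intro x hx
      apply e.injective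
      rw [hc', hcon x hx]
    have h2 : c ∈ X := key1 c h1 (hc e c hc')
    have h3 : c ι = ι := by
      refine hKi c ?_
      have h4 := h2.1
      rw [hK₁] at h4
      exact h4.2
    have h4 := hc' ι
    rw [h3] at h4
    have h5 : (e ι) ^ 2 = -1 := by rw [← map_pow, hι, map_neg, map_one]
    obtain ⟨r, hr⟩ := Complex.conj_eq_iff_real.1 h4.symm
    rw [hr] at h5
    have h6 : r ^ 2 = -1 := by exact_mod_cast h5
    nlinarith [sq_nonneg r]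

end Pool.Agent.K4H43.IW
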