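import Pool.Agent.K4H43.IW.Rel

/-!
# The main inequality with a relative family
-/

set_option autoImplicit false

namespace Pool.Agent.K4H43.IW

open Subgroup Module Pool.Agent.Q60.MU
open scoped commutatorElement

variable {𝔾 : Type} [Group 𝔾]

/-- **The main inequality.** -/
theorem main_ineq2 [TopologicalSpace 𝔾] [ContinuousMul 𝔾] {p : ℕ} [Fact p.Prime] {Ω : Type}
    [MulAction 𝔾 Ω] {I : Ω → Subgroup 𝔾}
    (hI : ∀ (g : 𝔾) (w : Ω), ∀ x ∈ I w, g * x * g⁻¹ ∈ I (g • w))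
    {K D : Subgroup 𝔾} (hKD : K ≤ D) (hKn : ∀ d ∈ D, ∀ x ∈ K, d * x * d⁻¹ ∈ K) {n t : ℕ}
    (hn0 : K.relIndex D ≠ 0) (hn : K.relIndex D ≤ n)
    (𝓗 : Finset (Subgroup 𝔾)) (hH : ∀ L ∈ 𝓗, K ≤ L ∧ L ≤ D) {C C' : ℕ}
    (hC'1 : 1 ≤ C')
    (good : 𝔾 → Prop) (hgood : ∀ g ∈ D, good g → RelBound p I K D g C')
    (hdet : ∀ (S : Type) [AddCommGroup S] [Module (ZMod p) S] [Module.Finite (ZMod p) S]
      (σ : Representation (ZMod p) D S), (∀ g ∈ K.subgroupOf D, ∀ x, σ g x = x) → IsSimple σ →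
      (∃ L ∈ 𝓗, coinv σ (L.subgroupOf D) ≠ ⊤) ∨ ∃ g : D, good g ∧ ∃ x, σ g x ≠ x)
    (T : Finset Ω) (hTt : T.card ≤ t) (hT : ∀ w, I w ⊓ D ≤ K ∨ ∃ u ∈ T, ∃ d ∈ D, w = d • u)
    (hC : ∀ L ∈ 𝓗, RankLe p I L C) :
    RankLe p I K ((cst n (n * t) * C) ^ (n * 𝓗.card) * (C' * C') ^ (n * n)) := by
  classical
  intro W₀ hW₀K hW₀o hW₀f hg₀
  obtain ⟨W, hWW₀, hWo, hWf, hg, hWn⟩ := exists_core hI hKn hn0 hW₀K hW₀o hW₀f hg₀
  have hWK : W ≤ K := hWW₀.trans hW₀K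
  refine (relIndex_le_of_le_left hWW₀ hWf).trans ?_
  obtain ⟨V, i1, i2, i3, ρ, π, hs, ha, h0, hρ⟩ := exists_rep hKD hKn hWf hg hWn
  have hπ1 : π 1 = 0 := (h0 1).2 W.one_mem
  have htriv : ∀ g ∈ K.subgroupOf D, ∀ x, ρ g x = x := by
    intro g hgK x
    obtain ⟨y, rfl⟩ := hs x
    rw [hρ]
    have h1 : (⟨g * y * (g : 𝔾)⁻¹, hKn g g.2 y y.2⟩ : K) =
        ⟨⁅(g : 𝔾), (y : 𝔾)⁆, hWK (hg (Or.inl (Or.inr ⟨g, hgK, y, y.2, rfl⟩)))⟩ * y := by
      apply Subtype.ext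
      show (g : 𝔾) * y * (g : 𝔾)⁻¹ = ⁅(g : 𝔾), (y : 𝔾)⁆ * y
      rw [commutatorElement_def]
      group
    rw [h1, ha, (h0 _).2 (hg (Or.inl (Or.inr ⟨g, hgK, y, y.2, rfl⟩))), zero_add]
  -- the coinvariants
  have hcard : ∀ c : Submodule (ZMod p) V, ∀ Q : Subgroup 𝔾,
      (∀ x, x ∈ Q ↔ ∃ h : x ∈ K, π ⟨x, h⟩ ∈ c) →
      Q.relIndex K = p ^ finrank (ZMod p) (V ⧸ c) := by
    intro c Q hQ
    let φ : K →* Multiplicative (V ⧸ c) :=
      { toFun := fun x => Multiplicative.ofAdd (c.mkQ (π x))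
        map_one' := by
          rw [hπ1, map_zero]
          rfl
        map_mul' := fun x y => by
          rw [ha, map_add]
          rfl }
    have h1 : Q.subgroupOf K = φ.ker := by
      ext x
      rw [mem_subgroupOf, hQ, MonoidHom.mem_ker]
      constructor
      · rintro ⟨_, h⟩
        exact (Submodule.Quotient.mk_eq_zero c).2 h
      · intro h
        exact ⟨x.2, (Submodule.Quotient.mk_eq_zero c).1 h⟩
    have h2 : Function.Surjective φ := by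
      intro y
      obtain ⟨v, hv⟩ := c.mkQ_surjective (Multiplicative.toAdd y)
      obtain ⟨x, rfl⟩ := hs v
      exact ⟨x, congrArg Multiplicative.ofAdd hv⟩
    have h3 : Nat.card (V ⧸ c) = p ^ finrank (ZMod p) (V ⧸ c) := by
      have h4 := Module.natCard_eq_pow_finrank (K := ZMod p) (V := V ⧸ c)
      rwa [Nat.card_zmod] at h4
    rw [relIndex, h1, index_ker, MonoidHom.range_eq_top.2 h2, card_top, ← h3]
    rfl
  have hmkQ : ∀ c : Submodule (ZMod p) V, ∃ Q : Subgroup 𝔾,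
      ∀ x, x ∈ Q ↔ ∃ h : x ∈ K, π ⟨x, h⟩ ∈ c := by
    intro c
    refine ⟨⟨⟨⟨{x | ∃ h : x ∈ K, π ⟨x, h⟩ ∈ c}, ?_⟩, ?_⟩, ?_⟩, fun x => Iff.rfl⟩
    · rintro a b ⟨h1, h2⟩ ⟨h3, h4⟩
      refine ⟨K.mul_mem h1 h3, ?_⟩
      have h5 : π ⟨a * b, K.mul_mem h1 h3⟩ = π ⟨a, h1⟩ + π ⟨b, h3⟩ := ha ⟨a, h1⟩ ⟨b, h3⟩
      rw [h5]
      exact c.add_mem h2 h4
    · refine ⟨K.one_mem, ?_⟩
      have h5 : π ⟨1, K.one_mem⟩ = 0 := hπ1
      rw [h5]
      exact c.zero_mem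
    · rintro a ⟨h1, h2⟩
      refine ⟨K.inv_mem h1, ?_⟩
      have h5 : π ⟨a, h1⟩ + π ⟨a⁻¹, K.inv_mem h1⟩ = 0 := by
        rw [← ha, ← hπ1]
        congr 1
        exact Subtype.ext (mul_inv_cancel a)
      have h6 : π ⟨a⁻¹, K.inv_mem h1⟩ = - π ⟨a, h1⟩ := (neg_eq_of_add_eq_zero_right h5).symm
      rw [h6]
      exact c.neg_mem h2
  have hcomm : ∀ l (hl : l ∈ D) k (hk : k ∈ K), ∃ hm : ⁅l, k⁆ ∈ K,
      π ⟨⁅l, k⁆, hm⟩ = ρ ⟨l, hl⟩ (π ⟨k, hk⟩) - π ⟨k, hk⟩ := by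
    intro l hl k hk
    have hlk : l * k * l⁻¹ ∈ K := hKn l hl k hk
    have hm : ⁅l, k⁆ ∈ K := by
      rw [commutatorElement_def]
      exact K.mul_mem hlk (K.inv_mem hk)
    refine ⟨hm, ?_⟩
    have h1 : π ⟨⁅l, k⁆, hm⟩ + π ⟨k, hk⟩ = ρ ⟨l, hl⟩ (π ⟨k, hk⟩) := by
      rw [hρ, ← ha]
      congr 1
      apply Subtype.ext
      show ⁅l, k⁆ * k = l * k * l⁻¹
      rw [commutatorElement_def]
      group
    rw [← h1, add_sub_cancel_right]
  have hL : ∀ L ∈ 𝓗, p ^ finrank (ZMod p) (V ⧸ coinv ρ (L.subgroupOf D)) ≤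
      cst n (n * t) * C := by
    intro L hLH
    obtain ⟨hKL, hLD⟩ := hH L hLH
    obtain ⟨Q, hQ⟩ := hmkQ (coinv ρ (L.subgroupOf D))
    have hidx := hcard _ Q hQ
    have hmul : K.relIndex L * L.relIndex D = K.relIndex D := relIndex_mul_relIndex K L D hKL hLD
    have hKL0 : K.relIndex L ≠ 0 := fun h => hn0 (by rw [← hmul, h, zero_mul])
    have hLD0 : L.relIndex D ≠ 0 := fun h => hn0 (by rw [← hmul, h, mul_zero])
    have hKLn : K.relIndex L ≤ n := by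
      refine le_trans ?_ hn
      rw [← hmul]
      exact Nat.le_mul_of_pos_right _ (Nat.pos_of_ne_zero hLD0)
    have hLDn : L.relIndex D ≤ n := by
      refine le_trans ?_ hn
      rw [← hmul]
      exact Nat.le_mul_of_pos_left _ (Nat.pos_of_ne_zero hKL0)
    obtain ⟨T', hT'c, hT'⟩ := exists_TL hLD0 T
    have hWQ : W ≤ Q := by
      intro x hx
      refine (hQ x).2 ⟨hWK hx, ?_⟩
      rw [(h0 ⟨x, hWK hx⟩).2 hx]
      exact (coinv ρ (L.subgroupOf D)).zero_mem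
    have hc : ∀ l ∈ L, ∀ k ∈ K, ⁅l, k⁆ ∈ Q := by
      intro l hl k hk
      obtain ⟨hm, h2⟩ := hcomm l (hLD hl) k hk
      refine (hQ _).2 ⟨hm, ?_⟩
      rw [h2]
      exact Submodule.subset_span ⟨⟨l, hLD hl⟩, hl, _, rfl⟩
    have h1 := genus hI hKL hKL0 (fun x hx => ((hQ x).1 hx).1) (isOpen_mono hWQ hWo)
      (by
        rw [hidx]
        exact pow_ne_zero _ (Fact.out : p.Prime).ne_zero)
      (fun x hx => hWQ (hg hx)) hc T' (by
        intro w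
        rcases hT w with h | ⟨u, hu, d, hd, rfl⟩
        · exact Or.inl ((inf_le_inf_left _ hLD).trans h)
        · exact Or.inr (hT' u hu d hd)) (hC L hLH)
    rw [hidx] at h1
    refine h1.trans (Nat.mul_le_mul_right _ ?_)
    refine cst_mono (Nat.pos_of_ne_zero hKL0) hKLn (hT'c.trans (Nat.mul_le_mul hLDn hTt))
  -- the relative family
  have hrel : ∀ g : D, good g → ∃ g' : D, (g : 𝔾)⁻¹ * g' ∈ K ∧
      p ^ finrank (ZMod p) (mov ρ g') ≤ C' * C' := by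
    intro g hgg
    obtain ⟨γ', hγD, hγK, hb⟩ := rel_bound hWK hWo hWf hg (hgood g g.2 hgg)
    refine ⟨⟨γ', hγD⟩, hγK, ?_⟩
    obtain ⟨Q, hQ⟩ := hmkQ (LinearMap.ker (ρ ⟨γ', hγD⟩ - LinearMap.id))
    have hidx := hcard _ Q hQ
    have h1 : finrank (ZMod p) (V ⧸ LinearMap.ker (ρ ⟨γ', hγD⟩ - LinearMap.id)) =
        finrank (ZMod p) (mov ρ ⟨γ', hγD⟩) :=
      LinearEquiv.finrank_eq (ρ ⟨γ', hγD⟩ - LinearMap.id).quotKerEquivRange
    rw [← h1, ← hidx]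
    refine hb Q (fun x hx => ((hQ x).1 hx).1) ?_ (fun x hx => (hcomm γ' hγD x hx).1) ?_
    · intro x hx
      refine (hQ x).2 ⟨hWK hx, ?_⟩
      rw [(h0 ⟨x, hWK hx⟩).2 hx]
      exact Submodule.zero_mem _
    · intro x hx hxW
      obtain ⟨hm, h2⟩ := hcomm γ' hγD x hx
      refine (hQ x).2 ⟨hx, ?_⟩
      rw [LinearMap.mem_ker]
      show ρ ⟨γ', hγD⟩ (π ⟨x, hx⟩) - π ⟨x, hx⟩ = 0
      rw [← h2]
      exact (h0 _).2 hxW
  choose! g' hg'K hg'b using hrel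
  have hfiD : (K.subgroupOf D).FiniteIndex := ⟨hn0⟩
  have hfinD : Finite (D ⧸ K.subgroupOf D) := inferInstance
  have ftD : Fintype (D ⧸ K.subgroupOf D) := Fintype.ofFinite _
  -- representatives of the cosets which contain good elements
  have hrep : ∀ q : D ⧸ K.subgroupOf D, ∃ r : D, (∃ g : D, good g ∧ (g : D ⧸ K.subgroupOf D) = q) →
      (r : D ⧸ K.subgroupOf D) = q ∧ p ^ finrank (ZMod p) (mov ρ r) ≤ C' * C' := by
    intro q
    by_cases h : ∃ g : D, good g ∧ (g : D ⧸ K.subgroupOf D) = q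
    · obtain ⟨g, hgg, hgq⟩ := h
      refine ⟨g' g, fun _ => ⟨?_, hg'b g hgg⟩⟩
      rw [← hgq]
      refine (QuotientGroup.eq.2 ?_).symm
      rw [mem_subgroupOf]
      push_cast
      exact hg'K g hgg
    · exact ⟨1, fun h' => absurd h' h⟩
  choose r hr using hrep
  set t' : Finset (D ⧸ K.subgroupOf D) :=
    Finset.univ.filter fun q => ∃ g : D, good g ∧ (g : D ⧸ K.subgroupOf D) = q with ht'
  have htcard : t'.card ≤ n := by
    refine (Finset.card_le_univ _).trans ?_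
    rw [← Nat.card_eq_fintype_card]
    exact hn
  have hdet2 : Detects2 (ZMod p) (K.subgroupOf D) 𝓗 (fun L => L.subgroupOf D) t' r := by
    intro S _ _ _ σ h1 h2
    rcases hdet S σ h1 h2 with h | ⟨g, hgg, x, hx⟩
    · exact Or.inl h
    · right
      refine ⟨(g : D ⧸ K.subgroupOf D), ?_, x, ?_⟩
      · rw [ht', Finset.mem_filter]
        exact ⟨Finset.mem_univ _, g, hgg, rfl⟩
      · have h3 := (hr (g : D ⧸ K.subgroupOf D) ⟨g, hgg, rfl⟩).1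
        have h4 : g⁻¹ * r (g : D ⧸ K.subgroupOf D) ∈ K.subgroupOf D := QuotientGroup.eq.1 h3.symm
        have h5 : r (g : D ⧸ K.subgroupOf D) = g * (g⁻¹ * r (g : D ⧸ K.subgroupOf D)) := by group
        rw [h5, map_mul, Module.End.mul_apply, h1 _ h4]
        exact hx
  -- the dimension of `V`
  have hWidx : W.relIndex K = p ^ finrank (ZMod p) V := by
    have h1 := hcard ⊥ W (by
      intro x
      constructor
      · intro hx
        exact ⟨hWK hx, (Submodule.mem_bot _).2 ((h0 _).2 hx)⟩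
      · rintro ⟨h, h'⟩
        exact (h0 ⟨x, h⟩).1 ((Submodule.mem_bot _).1 h'))
    have h2 := (⊥ : Submodule (ZMod p) V).finrank_quotient_add_finrank
    rw [finrank_bot, add_zero] at h2
    rw [h1, h2]
  have hdim := finrank_le2 ρ (K₀ := K.subgroupOf D) hn0 htriv hdet2
  have hp1 : 1 ≤ p := (Fact.out : p.Prime).one_le
  rw [hWidx]
  have hprod2 : ∏ j ∈ t', p ^ finrank (ZMod p) (mov ρ (r j)) ≤ (C' * C') ^ n := by
    refine (Finset.prod_le_pow_card _ _ _ fun j hj => ?_).trans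
      (Nat.pow_le_pow_right (Nat.mul_pos hC'1 hC'1) htcard)
    rw [ht', Finset.mem_filter] at hj
    exact (hr j hj.2).2
  calc p ^ finrank (ZMod p) V
      ≤ p ^ (n * (∑ L ∈ 𝓗, finrank (ZMod p) (V ⧸ coinv ρ (L.subgroupOf D)) +
          ∑ j ∈ t', finrank (ZMod p) (mov ρ (r j)))) :=
        Nat.pow_le_pow_right hp1 (hdim.trans (Nat.mul_le_mul_right _ hn))
    _ = (∏ L ∈ 𝓗, p ^ finrank (ZMod p) (V ⧸ coinv ρ (L.subgroupOf D))) ^ n *
          (∏ j ∈ t', p ^ finrank (ZMod p) (mov ρ (r j))) ^ n := by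
        rw [Finset.prod_pow_eq_pow_sum, Finset.prod_pow_eq_pow_sum, ← pow_mul, ← pow_mul,
          ← pow_add]
        congr 1
        ring
    _ ≤ ((cst n (n * t) * C) ^ 𝓗.card) ^ n * ((C' * C') ^ n) ^ n :=
        Nat.mul_le_mul (Nat.pow_le_pow_left (Finset.prod_le_pow_card _ _ _ hL) _)
          (Nat.pow_le_pow_left hprod2 _)
    _ = (cst n (n * t) * C) ^ (n * 𝓗.card) * (C' * C') ^ (n * n) := by
        rw [← pow_mul, ← pow_mul, mul_comm 𝓗.card n]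

end Pool.Agent.K4H43.IW
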