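import Pool.Agent.Q60.MU.Main
import Pool.Agent.K4H43.IW.Det

/-!
# The relative bound
-/

set_option autoImplicit false

namespace Pool.Agent.K4H43.IW

open Subgroup Module Pool.Agent.Q60.MU
open scoped commutatorElement

variable {𝔾 : Type} [Group 𝔾]

/-- An element `γ` of `D` and a subgroup `X` of `K` such that the ranks of `X` and of `⟨X, γ'⟩`,
`γ'` in the class `γ K`, differ by a bounded amount. -/
def RelBound [TopologicalSpace 𝔾] (p : ℕ) {Ω : Type} (I : Ω → Subgroup 𝔾) (K D : Subgroup 𝔾)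
    (γ : 𝔾) (C : ℕ) : Prop :=
  ∃ X : Subgroup 𝔾, X ≤ K ∧ X.relIndex K ≠ 0 ∧ X.relIndex K ≤ C ∧ IsOpen (X : Set 𝔾) ∧
    ∃ γ' ∈ D, γ⁻¹ * γ' ∈ K ∧ (∀ x ∈ X, γ' * x * γ'⁻¹ ∈ X) ∧
      ¬ p ∣ X.relIndex (X ⊔ zpowers γ') ∧
      (∃ E, RankLe p I (X ⊔ zpowers γ') E) ∧
      ∀ E, RankLe p I (X ⊔ zpowers γ') E → RankLe p I X (C * E)

theorem relIndex_prime_pow {p : ℕ} (hp : p.Prime) {K W : Subgroup 𝔾} (hWK : W ≤ K)
    (hf : W.relIndex K ≠ 0) (hc : ∀ a ∈ K, ∀ b ∈ K, ⁅a, b⁆ ∈ W) (hpw : ∀ a ∈ K, a ^ p ∈ W) :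
    ∃ j, W.relIndex K = p ^ j := by
  classical
  have hN : (W.subgroupOf K).Normal := by
    refine ⟨fun q hq l => ?_⟩
    rw [mem_subgroupOf] at hq ⊢
    have h1 : ((l * q * l⁻¹ : K) : 𝔾) = ⁅(l : 𝔾), (q : 𝔾)⁆ * q := by
      rw [commutatorElement_def]
      push_cast
      group
    rw [h1]
    exact W.mul_mem (hc l l.2 q q.2) hq
  have hfi : (W.subgroupOf K).FiniteIndex := ⟨hf⟩
  have hpf : Fact p.Prime := ⟨hp⟩
  have hpg : IsPGroup p (K ⧸ W.subgroupOf K) := by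
    intro x
    obtain ⟨y, rfl⟩ := QuotientGroup.mk_surjective x
    refine ⟨1, ?_⟩
    rw [pow_one]
    show ((y ^ p : K) : K ⧸ W.subgroupOf K) = 1
    rw [QuotientGroup.eq_one_iff, mem_subgroupOf]
    push_cast
    exact hpw y y.2
  obtain ⟨j, hj⟩ := IsPGroup.iff_card.1 hpg
  exact ⟨j, hj⟩

/-- **The relative bound.** -/
theorem rel_bound [TopologicalSpace 𝔾] [ContinuousMul 𝔾] {p : ℕ} [Fact p.Prime] {Ω : Type} {I : Ω → Subgroup 𝔾}
    {K D W : Subgroup 𝔾} {γ : 𝔾} {C : ℕ} (hWK : W ≤ K)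
    (hWo : IsOpen (W : Set 𝔾)) (hWf : W.relIndex K ≠ 0) (hg : gens p I K ⊆ W)
    (hb : RelBound p I K D γ C) :
    ∃ γ' ∈ D, γ⁻¹ * γ' ∈ K ∧ ∀ Q : Subgroup 𝔾, Q ≤ K → W ≤ Q →
      (∀ x ∈ K, ⁅γ', x⁆ ∈ K) → (∀ x ∈ K, ⁅γ', x⁆ ∈ W → x ∈ Q) → Q.relIndex K ≤ C * C := by
  classical
  have hp : p.Prime := Fact.out
  obtain ⟨X, hXK, hX0, hXC, hXo, γ', hγ', hγγ', hXn, hXp, hE, hgr⟩ := hb
  refine ⟨γ', hγ', hγγ', fun Q hQK hWQ hcK hcQ => ?_⟩
  set Y := X ⊔ zpowers γ' with hY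
  have hXY : X ≤ Y := le_sup_left
  have hγY : γ' ∈ Y := mem_sup_right (mem_zpowers γ')
  have hXY0 : X.relIndex Y ≠ 0 := fun h => hXp (by rw [h]; exact dvd_zero p)
  -- the exact rank of `Y`
  have hmin := Nat.find_spec hE
  set E := Nat.find hE with hEdef
  have hE1 : 1 ≤ E := by
    have h1 := hmin Y le_rfl (Subgroup.isOpen_mono hXY hXo) (by rw [relIndex_self]; exact one_ne_zero)
      gens_subset
    rwa [relIndex_self] at h1
  obtain ⟨WY, hWY, hWYo, hWYf, hWYg, hWYE⟩ : ∃ WY : Subgroup 𝔾, WY ≤ Y ∧ IsOpen (WY : Set 𝔾) ∧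
      WY.relIndex Y ≠ 0 ∧ gens p I Y ⊆ WY ∧ E ≤ WY.relIndex Y := by
    by_contra hcon
    push Not at hcon
    have h1 : RankLe p I Y (E - 1) := by
      intro W' h1 h2 h3 h4
      have := hcon W' h1 h2 h3 h4
      omega
    have h2 := Nat.find_min' hE h1
    omega
  have hYE : WY.relIndex Y = E := le_antisymm (hmin WY hWY hWYo hWYf hWYg) hWYE
  -- the index in `X`
  obtain ⟨j, hj⟩ := relIndex_prime_pow hp hWY hWYf
    (fun a ha b hb => hWYg (Or.inl (Or.inr ⟨a, ha, b, hb, rfl⟩)))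
    (fun a ha => hWYg (Or.inl (Or.inl ⟨a, ha, rfl⟩)))
  have hXW : (X ⊓ WY).relIndex X = E := by
    have h1 : (X ⊓ WY).relIndex X = WY.relIndex X := inf_relIndex_left X WY
    have h2 : (X ⊓ WY).relIndex Y = (X ⊓ WY).relIndex X * X.relIndex Y :=
      (relIndex_mul_relIndex _ _ _ inf_le_left hXY).symm
    have h3 : (X ⊓ WY).relIndex Y = (X ⊓ WY).relIndex WY * WY.relIndex Y :=
      (relIndex_mul_relIndex _ _ _ inf_le_right hWY).symm
    -- `E` is a power of `p` dividing the product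
    have h4 : (X ⊓ WY).relIndex X ≠ 0 := by
      rw [h1]
      exact fun h => hWYf (relIndex_eq_zero_of_le_right hXY h)
    have h5 : (X ⊓ WY).relIndex X ≤ E := by
      rw [h1, ← hYE]
      exact relIndex_le_of_le_right hXY hWYf
    have h6 : E ∣ (X ⊓ WY).relIndex X * X.relIndex Y := by
      rw [← h2, h3, hYE]
      exact dvd_mul_left _ _
    have h7 : Nat.Coprime E (X.relIndex Y) := by
      rw [← hYE, hj]
      exact Nat.Coprime.pow_left _ ((Nat.Prime.coprime_iff_not_dvd hp).2 hXp)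
    exact le_antisymm h5 (Nat.le_of_dvd (Nat.pos_of_ne_zero h4) (h7.dvd_of_dvd_mul_right h6))
  -- the subgroup `W''`
  have hKsub : gens p I X ⊆ W := fun x hx => hg (gens_mono hXK hx)
  have h1 : (W ⊓ (X ⊓ WY)).relIndex X ≤ C * E := by
    refine hgr E hmin _ (inf_le_right.trans inf_le_left) ?_ ?_ ?_
    · rw [coe_inf, coe_inf]
      exact hWo.inter (hXo.inter hWYo)
    · refine relIndex_inf_ne_zero ?_ ?_
      · exact fun h => hWf (relIndex_eq_zero_of_le_right hXK h)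
      · rw [hXW]
        omega
    · intro x hx
      exact ⟨hKsub hx, gens_subset hx, hWYg (gens_mono hXY hx)⟩
  have h2 : (W ⊓ (X ⊓ WY)).relIndex X =
      (W ⊓ (X ⊓ WY)).relIndex (X ⊓ WY) * (X ⊓ WY).relIndex X :=
    (relIndex_mul_relIndex _ _ _ inf_le_right inf_le_left).symm
  have h3 : (W ⊓ (X ⊓ WY)).relIndex (X ⊓ WY) ≤ C := by
    rw [h2, hXW] at h1
    exact Nat.le_of_mul_le_mul_right h1 hE1
  have h3' : (W ⊓ (X ⊓ WY)).relIndex (X ⊓ WY) ≠ 0 := by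
    rw [inf_relIndex_right]
    exact fun h => hWf (relIndex_eq_zero_of_le_right (inf_le_left.trans hXK) h)
  -- commutators with `γ'`
  have h4 : (Q ⊓ X).relIndex X ≤ C := by
    refine le_trans ?_ h3
    have hfi : ((W ⊓ (X ⊓ WY)).subgroupOf (X ⊓ WY)).FiniteIndex := ⟨h3'⟩
    have hfin : Finite ((X ⊓ WY : Subgroup 𝔾) ⧸ (W ⊓ (X ⊓ WY)).subgroupOf (X ⊓ WY)) := inferInstance
    have hcX : ∀ x ∈ X, ⁅γ', x⁆ ∈ X ⊓ WY := by
      intro x hx
      refine ⟨?_, hWYg (Or.inl (Or.inr ⟨γ', hγY, x, hXY hx, rfl⟩))⟩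
      rw [commutatorElement_def]
      exact X.mul_mem (hXn x hx) (X.inv_mem hx)
    let f : X → (X ⊓ WY : Subgroup 𝔾) ⧸ (W ⊓ (X ⊓ WY)).subgroupOf (X ⊓ WY) :=
      fun x => ((⟨⁅γ', (x : 𝔾)⁆, hcX x x.2⟩ : (X ⊓ WY : Subgroup 𝔾)) : _ ⧸ _)
    have hf : ∀ x y : X, f x = f y → (x : 𝔾)⁻¹ * y ∈ Q := by
      intro x y hxy
      have h5 := QuotientGroup.eq.1 hxy
      rw [mem_subgroupOf] at h5
      have h6 : (⁅γ', (x : 𝔾)⁆)⁻¹ * ⁅γ', (y : 𝔾)⁆ ∈ W := h5.1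
      have hxK := hXK x.2
      have hyK := hXK y.2
      have hgK : γ' * (x : 𝔾) * γ'⁻¹ ∈ K := hXK (hXn x x.2)
      have hgK' : γ' * (y : 𝔾) * γ'⁻¹ ∈ K := hXK (hXn y y.2)
      refine hcQ _ (K.mul_mem (K.inv_mem hxK) hyK) ?_
      -- modulo `W` the group `K` is commutative
      have hcomm : ∀ a ∈ K, ∀ b ∈ K, ⁅a, b⁆ ∈ W :=
        fun a ha b hb => hg (Or.inl (Or.inr ⟨a, ha, b, hb, rfl⟩))
      have hconj : ∀ a ∈ K, ∀ w ∈ W, a * w * a⁻¹ ∈ W := by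
        intro a ha w hw
        have h7 : a * w * a⁻¹ = ⁅a, w⁆ * w := by
          rw [commutatorElement_def]
          group
        rw [h7]
        exact W.mul_mem (hcomm a ha w (hWK hw)) hw
      -- with `x' = γ x γ⁻¹`, `y' = γ y γ⁻¹`
      set x' := γ' * (x : 𝔾) * γ'⁻¹ with hx'
      set y' := γ' * (y : 𝔾) * γ'⁻¹ with hy'
      have h8 : ⁅γ', (x : 𝔾)⁻¹ * y⁆ = x'⁻¹ * y' * (y : 𝔾)⁻¹ * x := by
        rw [commutatorElement_def, hx', hy']
        group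
      have h9 : (⁅γ', (x : 𝔾)⁆)⁻¹ * ⁅γ', (y : 𝔾)⁆ = x * x'⁻¹ * y' * (y : 𝔾)⁻¹ := by
        rw [commutatorElement_def, commutatorElement_def, hx', hy']
        group
      rw [h9] at h6
      rw [h8]
      have h10 := hconj _ (K.inv_mem hxK) _ h6
      have h11 : (x : 𝔾)⁻¹ * (x * x'⁻¹ * y' * (y : 𝔾)⁻¹) * ((x : 𝔾)⁻¹)⁻¹ =
          x'⁻¹ * y' * (y : 𝔾)⁻¹ * x := by group
      rwa [h11] at h10
    have h5 : Function.Injective (fun q : X ⧸ (Q ⊓ X).subgroupOf X => f q.out) := by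
      intro q q' hqq
      have h6 := hf _ _ hqq
      rw [← QuotientGroup.out_eq' q, ← QuotientGroup.out_eq' q', QuotientGroup.eq, mem_subgroupOf]
      exact ⟨by push_cast; exact h6, (q.out⁻¹ * q'.out).2⟩
    have h6 := Nat.card_le_card_of_injective _ h5
    exact h6
  calc Q.relIndex K ≤ (Q ⊓ X).relIndex K := by
        refine relIndex_le_of_le_left inf_le_left (relIndex_inf_ne_zero ?_ hX0)
        intro h
        exact hWf (relIndex_eq_zero_of_le_left hWQ h)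
    _ = (Q ⊓ X).relIndex X * X.relIndex K :=
        (relIndex_mul_relIndex _ _ _ inf_le_right hXK).symm
    _ ≤ C * C := Nat.mul_le_mul h4 hXC

end Pool.Agent.K4H43.IW
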