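import Pool.Agent.Q60.MU.Fields
import Pool.Agent.K4H24.IW.Cyc

/-!
# Statements of the arithmetic inputs
-/

set_option autoImplicit false

namespace Pool.Agent.K4H43.IW

open Subgroup Module IntermediateField Pool.Agent.Q60.MU Pool.Agent.K4H24.IW
open scoped Pointwise

/-- (FIN) the `p`-rank of the class group of a number field is finite -/
def S_FIN : Prop := ∀ (p : ℕ), p.Prime → ∀ Y : Subgroup Gal(Qb/ℚ), IsOpen (Y : Set Gal(Qb/ℚ)) →
  Y.index ≠ 0 → ∃ C, RankLe p inertia Y C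

/-- (QQ) the class numbers of the layers of the cyclotomic `ℤ_p`-extension of `ℚ` are prime to `p` -/
def S_QQ : Prop := ∀ (p : ℕ) [Fact p.Prime], p ≠ 2 → ∀ R : ℕ → IntermediateField ℚ Qb,
  IsCycTower p R → ∀ m, RankLe p inertia (R m).fixingSubgroup 1

/-- (CHAR) a cyclic extension `T` of `ℚ` of degree `ℓ`, not contained in the field of `K`, in which
all primes of `S` and the archimedean place split and which is unramified where `K` is ramified -/
def S_CHAR : Prop := ∀ (ℓ : ℕ), ℓ.Prime → ∀ S : Finset ℕ, (∀ s ∈ S, s.Prime) →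
  ∀ K : Subgroup Gal(Qb/ℚ), IsOpen (K : Set Gal(Qb/ℚ)) → K.Normal → K.index ≠ 0 →
  ∃ χ : Gal(Qb/ℚ) →* Multiplicative (ZMod ℓ), IsOpen (χ.ker : Set Gal(Qb/ℚ)) ∧
    (∃ k ∈ K, χ k ≠ 1) ∧
    (∀ A : ValuationSubring Qb, (∃ s ∈ S, (s : Qb) ∈ A.nonunits) →
      ∀ σ : Gal(Qb/ℚ), σ • A = A → χ σ = 1) ∧
    (∀ A : ValuationSubring Qb, inertia A ≤ χ.ker ∨ inertia A ≤ K) ∧
    ∀ (e : Qb →+* ℂ) (c : Gal(Qb/ℚ)), (∀ x, e (c x) = (starRingEnd ℂ) (e x)) → χ c = 1

/-- (VAL) the maximal ideals of the ring of all algebraic integers and valuation rings -/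
def S_VAL : Prop := ∀ P : Ideal (NumberField.RingOfIntegers (AlgebraicClosure ℚ)), P.IsMaximal →
  ∃ A : ValuationSubring Qb,
    (∀ x : NumberField.RingOfIntegers (AlgebraicClosure ℚ), (x : Qb) ∈ A.nonunits ↔ x ∈ P) ∧
    ∀ τ : Gal(Qb/ℚ), (∀ x : NumberField.RingOfIntegers (AlgebraicClosure ℚ), τ • x - x ∈ P) →
      τ ∈ inertia A

end Pool.Agent.K4H43.IW
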