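import Pool.Agent.K4H43.IW.Stm

/-!
# Statements of the arithmetic inputs, 2
-/

set_option autoImplicit false

namespace Pool.Agent.K4H43.IW

open Subgroup Module IntermediateField Pool.Agent.Q60.MU
open scoped Pointwise

/-- (SPLIT) infinitely many primes `q ≡ 1` modulo `n` split completely in a number field -/
def S_SPLIT : Prop := ∀ K : Subgroup Gal(Qb/ℚ), IsOpen (K : Set Gal(Qb/ℚ)) → K.Normal →
  K.index ≠ 0 → ∀ n : ℕ, n ≠ 0 → ∀ B : ℕ, ∃ q : ℕ, q.Prime ∧ B < q ∧ q ≡ 1 [MOD n] ∧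
    ∀ A : ValuationSubring Qb, (q : Qb) ∈ A.nonunits → ∀ σ : Gal(Qb/ℚ), σ • A = A → σ ∈ K

/-- (CHAR2) a cyclic extension `T` of `ℚ` of degree `ℓ`, not contained in the field of `K`, in which
all primes of `S` and the archimedean place split and whose ramified primes split completely in the
field of `K` -/
def S_CHAR2 : Prop := ∀ (ℓ : ℕ), ℓ.Prime → ∀ S : Finset ℕ, (∀ s ∈ S, s.Prime) →
  ∀ K : Subgroup Gal(Qb/ℚ), IsOpen (K : Set Gal(Qb/ℚ)) → K.Normal → K.index ≠ 0 →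
  ∃ χ : Gal(Qb/ℚ) →* Multiplicative (ZMod ℓ), IsOpen (χ.ker : Set Gal(Qb/ℚ)) ∧
    (∃ k ∈ K, χ k ≠ 1) ∧
    (∀ A : ValuationSubring Qb, (∃ s ∈ S, (s : Qb) ∈ A.nonunits) →
      ∀ σ : Gal(Qb/ℚ), σ • A = A → χ σ = 1) ∧
    (∀ A : ValuationSubring Qb, inertia A ≤ χ.ker ∨ ∀ σ : Gal(Qb/ℚ), σ • A = A → σ ∈ K) ∧
    ∀ (e : Qb →+* ℂ) (c : Gal(Qb/ℚ)), (∀ x, e (c x) = (starRingEnd ℂ) (e x)) → χ c = 1

end Pool.Agent.K4H43.IW
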